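import Mathlib

/-!
# Nil algebras and matrices: definitions (text: /team-store/koethe.md)

`Fr F` is the free algebra on two letters.  It is used twice: as the algebra `A` (letters `a`, `b`)
and as the algebra `P` of operators (letters `al`, `be`), which acts on `A` by left derivatives.
-/

set_option autoImplicit false

namespace Pool.Agent.Koe

open Polynomial

/-- the free algebra on two letters -/
abbrev Fr (F : Type*) [Field F] : Type _ := FreeAlgebra F Bool

variable {F : Type*} [Field F]

/-- the letters -/
noncomputable abbrev lt (F : Type*) [Field F] (c : Bool) : Fr F := FreeAlgebra.ι F c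

/-- the constant term -/
noncomputable def eps : Fr F →ₐ[F] F := FreeAlgebra.lift F (fun _ => (0 : F))

@[simp] lemma eps_lt (c : Bool) : eps (lt F c) = 0 := by
  unfold eps lt
  rw [FreeAlgebra.lift_ι_apply]

/-- the algebra homomorphism `x ↦ [[eps x, D x], [0, x]]` -/
noncomputable def dmat (c : Bool) : Fr F →ₐ[F] Matrix (Fin 2) (Fin 2) (Fr F) :=
  FreeAlgebra.lift F (fun c' => !![0, if c' = c then 1 else 0; 0, lt F c'])

/-- the left derivative with respect to the letter `c` -/
noncomputable def D (c : Bool) : Module.End F (Fr F) where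
  toFun x := dmat c x 0 1
  map_add' x y := by rw [map_add]; rfl
  map_smul' r x := by rw [map_smul]; rfl

lemma dmat_10 (c : Bool) (x : Fr F) : dmat c x 1 0 = 0 := by
  induction x using FreeAlgebra.induction with
  | grade0 r => rw [AlgHom.commutes, Matrix.algebraMap_matrix_apply]; simp
  | grade1 c' => unfold dmat; rw [FreeAlgebra.lift_ι_apply]; simp
  | mul x y hx hy => rw [map_mul, Matrix.mul_apply, Fin.sum_univ_two, hx, hy]; simp
  | add x y hx hy => rw [map_add, Matrix.add_apply, hx, hy, add_zero]

lemma dmat_00 (c : Bool) (x : Fr F) : dmat c x 0 0 = algebraMap F (Fr F) (eps x) := by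
  induction x using FreeAlgebra.induction with
  | grade0 r => rw [AlgHom.commutes, Matrix.algebraMap_matrix_apply, AlgHom.commutes]; simp
  | grade1 c' =>
    unfold dmat
    rw [FreeAlgebra.lift_ι_apply]
    have := eps_lt (F := F) c'
    unfold lt at this
    rw [this]; simp
  | mul x y hx hy =>
    rw [map_mul, Matrix.mul_apply, Fin.sum_univ_two, hx, hy, dmat_10 c y, mul_zero, add_zero,
      map_mul, map_mul]
  | add x y hx hy => rw [map_add, Matrix.add_apply, hx, hy, map_add, map_add]

lemma dmat_11 (c : Bool) (x : Fr F) : dmat c x 1 1 = x := by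
  induction x using FreeAlgebra.induction with
  | grade0 r => rw [AlgHom.commutes, Matrix.algebraMap_matrix_apply]; simp
  | grade1 c' => unfold dmat; rw [FreeAlgebra.lift_ι_apply]; simp
  | mul x y hx hy => rw [map_mul, Matrix.mul_apply, Fin.sum_univ_two, hx, hy, dmat_10 c x]; simp
  | add x y hx hy => rw [map_add, Matrix.add_apply, hx, hy]

lemma D_mul (c : Bool) (x y : Fr F) : D c (x * y) = D c x * y + eps x • D c y := by
  change dmat c (x * y) 0 1 = dmat c x 0 1 * y + eps x • dmat c y 0 1
  rw [map_mul, Matrix.mul_apply, Fin.sum_univ_two, dmat_00, dmat_11, Algebra.smul_def, add_comm]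

lemma D_algebraMap (c : Bool) (r : F) : D c (algebraMap F (Fr F) r) = 0 := by
  change dmat c (algebraMap F (Fr F) r) 0 1 = 0
  rw [AlgHom.commutes, Matrix.algebraMap_matrix_apply]; simp

@[simp] lemma D_one (c : Bool) : D c (1 : Fr F) = 0 := by
  have := D_algebraMap (F := F) c 1
  rwa [map_one] at this

lemma D_lt (c c' : Bool) : D c (lt F c') = if c' = c then 1 else 0 := by
  change dmat c (lt F c') 0 1 = _
  unfold dmat lt
  rw [FreeAlgebra.lift_ι_apply]; simp

/-- the action of the operator algebra by left derivatives: `dd (s₁ * s₂) = dd s₁ ∘ dd s₂` -/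
noncomputable def dd : Fr F →ₐ[F] Module.End F (Fr F) := FreeAlgebra.lift F (fun c => D c)

@[simp] lemma dd_lt (c : Bool) : dd (lt F c) = D c := by
  unfold dd lt
  rw [FreeAlgebra.lift_ι_apply]

/-- the pairing -/
noncomputable def phi (s u : Fr F) : F := eps (dd s u)

/-- sequences `ℕ → A`: the element `∑ τ^n u_n` -/
abbrev V (F : Type*) [Field F] : Type _ := ℕ → Fr F

/-- coefficientwise action of an operator -/
def hat (f : Module.End F (Fr F)) : Module.End F (V F) where
  toFun u := fun n => f (u n)
  map_add' u v := by funext n; exact map_add f _ _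
  map_smul' r u := by funext n; exact map_smul f _ _

@[simp] lemma hat_apply (f : Module.End F (Fr F)) (u : V F) (n : ℕ) : hat f u n = f (u n) := rfl

/-- multiplication by `τ` -/
def tau : Module.End F (V F) where
  toFun u := fun n => match n with
    | 0 => 0
    | n + 1 => u n
  map_add' u v := by funext n; cases n <;> simp
  map_smul' r u := by funext n; cases n <;> simp

@[simp] lemma tau_zero (u : V F) : tau u 0 = 0 := rfl
@[simp] lemma tau_succ (u : V F) (n : ℕ) : tau u (n + 1) = u n := rfl

/-- the operator `x ↦ eps x • D c g` -/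
noncomputable def E (g : Fr F) (c : Bool) : Module.End F (Fr F) :=
  (LinearMap.toSpanSingleton F (Fr F) (D c g)) ∘ₗ (eps (F := F)).toLinearMap

@[simp] lemma E_apply (g : Fr F) (c : Bool) (x : Fr F) : E g c x = eps x • D c g := rfl

/-- the transfer operators `T_g`: `T g (s₁ * s₂) = T g s₁ ∘ T g s₂` -/
noncomputable def T (g : Fr F) : Fr F →ₐ[F] Module.End F (V F) :=
  FreeAlgebra.lift F (fun c => hat (D c) + tau * hat (E g c))

lemma T_lt (g : Fr F) (c : Bool) : T g (lt F c) = hat (D c) + tau * hat (E g c) := by
  unfold T lt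
  rw [FreeAlgebra.lift_ι_apply]

lemma tau_commute (g s : Fr F) : Commute (tau (F := F)) (T g s) := by
  have h1 : ∀ f : Module.End F (Fr F), Commute (tau (F := F)) (hat f) := by
    intro f
    refine LinearMap.ext fun u => funext fun n => ?_
    cases n with
    | zero => change (0 : Fr F) = f 0; rw [map_zero]
    | succ n => rfl
  induction s using FreeAlgebra.induction with
  | grade0 r => rw [AlgHom.commutes]; exact (Algebra.commutes r _).symm
  | grade1 c =>
    have := T_lt g c
    unfold lt at this
    rw [this]
    exact (h1 _).add_right ((Commute.refl _).mul_right (h1 _))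
  | mul x y hx hy => rw [map_mul]; exact hx.mul_right hy
  | add x y hx hy => rw [map_add]; exact hx.add_right hy

/-- constant sequences -/
def cst : Fr F →ₗ[F] V F where
  toFun x := fun n => match n with
    | 0 => x
    | _ + 1 => 0
  map_add' x y := by funext n; cases n <;> simp
  map_smul' r x := by funext n; cases n <;> simp

@[simp] lemma cst_zero (x : Fr F) : cst x 0 = x := rfl
@[simp] lemma cst_succ (x : Fr F) (n : ℕ) : cst x (n + 1) = 0 := rfl

/-- a finite dimensional space `O` of states for `g` -/
structure St (g : Fr F) (O : Submodule F (Fr F)) : Prop where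
  fin : Module.Finite F O
  Dg : ∀ c, D c g ∈ O
  DO : ∀ c, ∀ x ∈ O, D c x ∈ O

/-- constants with values in `O` -/
def CO (O : Submodule F (Fr F)) : Submodule F (V F) := O.map cst

/-- `s` has weight at most `n` (for `g` and `O`) -/
def WtO (g : Fr F) (O : Submodule F (Fr F)) (s : Fr F) (n : ℕ) : Prop :=
  ∃ S : Finset (V F), S.card ≤ n ∧
    (∀ x ∈ CO O, T g s x ∈ CO O ⊔ Submodule.span F (S : Set (V F))) ∧
    (∀ y ∈ S, y ∈ (CO O ⊔ Submodule.span F (S : Set (V F))).map tau)

/-- `s` has weight at most `n` for all `g` and `O` -/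
def Wt (s : Fr F) (n : ℕ) : Prop :=
  ∀ (g : Fr F) (O : Submodule F (Fr F)), eps g = 0 → St g O → WtO g O s n

/-- the space `O[τ]` -/
def WO (O : Submodule F (Fr F)) : Submodule F (V F) := ⨆ i : ℕ, (CO O).map (tau ^ i)

/-- `T g s = 0` on `O` -/
def Kl (g : Fr F) (O : Submodule F (Fr F)) (s : Fr F) : Prop :=
  ∀ x ∈ O, T g s (cst x) = 0

variable {K : Type*} [Field K] [Algebra F K]

/-- `zeta : P → K[t]`, `al ↦ t`, `be ↦ w t` -/
noncomputable def zeta (w : K) : Fr F →ₐ[F] K[X] :=
  FreeAlgebra.lift F (fun c => if c then Polynomial.C w * X else X)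

lemma zeta_false (w : K) : zeta (F := F) w (lt F false) = X := by
  unfold zeta lt
  rw [FreeAlgebra.lift_ι_apply]; simp

lemma zeta_true (w : K) : zeta (F := F) w (lt F true) = Polynomial.C w * X := by
  unfold zeta lt
  rw [FreeAlgebra.lift_ι_apply]; simp

/-- the triples of the induction -/
structure Tri (w : K) (p q r : Fr F) (n : ℕ) : Prop where
  nz : zeta w p ≠ 0
  hq : zeta w q = Polynomial.C w * zeta w p
  hr : zeta w r = X * zeta w p
  wt : Wt p n
  lt : n < 2 * (zeta w p).natDegree

end Pool.Agent.Koe
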