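import Mathlib

/-!
# The rank lemma (lemma 3 of /team-store/koethe.md), abstract form

`V` a vector space with commuting endomorphisms `t` and `M`; `O` finite dimensional, `S` finite,
`M O ⊆ O + ⟨S⟩` and `S ⊆ t (O + ⟨S⟩)`.  Then any family of more than `|S|` vectors of `O[t]` is
`F[M]`-dependent.

Proof.  Regard `V` as an `F[X]`-module by `X ↦ M` (`Module.AEval' M`), `t` is `F[X]`-linear.
`Y = F[X]`-span of `S`.  (1) In `V / Y` the image of `O` is a finite dimensional `F`-space stable under
`X` (hA), so there is a monic `D ∈ F[X]` (Cayley-Hamilton, `LinearMap.exists_monic_and_aeval_eq_zero`)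
with `D • O ⊆ Y`.  (2) by hB `y = t z`, `z ∈ O + ⟨S⟩`, so `D • y = t (D • z) ∈ t Y`; hence
`D^k • Y ⊆ t^k Y`.  (3) for `i ≤ I` and `x ∈ O`: `D^(I+1) • t^i x = D^i • t^i (D^(I-i) • (D • x)) ∈
D^i • t^i t^(I-i) Y ⊆ t^I Y`.  (4) choose `I` with all `w j ∈ ⨆ i ≤ I, t^i O`; the vectors
`D^(I+1) • w j` lie in `t^I Y`, which is spanned over `F[X]` by the `S.card` vectors `t^I y`, `y ∈ S`;
a matrix with more columns than rows over `F[X]` has a non-zero kernel vector
(`card_le_of_injective`), so `∑ q_j • D^(I+1) • w j = 0` with `q ≠ 0`; `p_j = q_j * D^(I+1)`.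
-/

set_option autoImplicit false

namespace Pool.Agent.Koe

open Polynomial Module

private theorem rank_aux {F W : Type*} [Field F] [AddCommGroup W] [Module F W]
    {ι : Type*} [Fintype ι] {O : Submodule F W} [FiniteDimensional F O]
    {τ x : Module.End F W} {n : ℕ}
    (hxτ : ∀ v, x (τ v) = τ (x v))
    (Φ : Submodule F W) [FiniteDimensional F Φ] (hΦn : finrank F Φ ≤ n)
    (hA : O.map x ≤ O ⊔ Φ) (hB : Φ ≤ (O ⊔ Φ).map τ)
    (hι : n < Fintype.card ι) (w : ι → W)
    (hO : ∀ j, ∃ I : ℕ, w j ∈ ⨆ i ∈ Finset.range (I + 1), O.map (τ ^ i)) :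
    ∃ p : ι → F[X], p ≠ 0 ∧ ∑ j, aeval x (p j) (w j) = 0 := by
  let modX : Module F[X] W := Module.compHom W (aeval (R := F) x : F[X] →ₐ[F] Module.End F W).toRingHom
  have smul_def : ∀ (p : F[X]) (v : W), p • v = aeval x p v := fun _ _ => rfl
  have C_smul : ∀ (c : F) (v : W), (C c : F[X]) • v = c • v := by
    intro c v
    rw [smul_def, aeval_C]
    rfl
  have X_smul : ∀ (v : W), (X : F[X]) • v = x v := by
    intro v
    rw [smul_def, aeval_X]
  -- τ is F[X]-linear
  have hcomm : ∀ (p : F[X]) (v : W), τ (p • v) = p • τ v := by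
    intro p v
    induction p using Polynomial.induction_on' with
    | add p q hp hq => rw [add_smul, map_add, hp, hq, add_smul]
    | monomial k a =>
      rw [← C_mul_X_pow_eq_monomial, mul_smul, mul_smul, C_smul, C_smul, map_smul]
      congr 1
      induction k with
      | zero => simp
      | succ k ih => rw [pow_succ', mul_smul, mul_smul, X_smul, X_smul, ← hxτ, ih]
  let τX : W →ₗ[F[X]] W :=
    { toFun := τ
      map_add' := fun a b => map_add τ a b
      map_smul' := fun p v => hcomm p v }
  have τX_apply : ∀ v, τX v = τ v := fun _ => rfl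
  have τXpow : ∀ (i : ℕ) (v : W), (τX ^ i) v = (τ ^ i) v := by
    intro i
    induction i with
    | zero => intro v; simp
    | succ i ih => intro v; rw [pow_succ, pow_succ, Module.End.mul_apply, Module.End.mul_apply, τX_apply, ih]
  set Y : Submodule F[X] W := Submodule.span F[X] (Φ : Set W) with hY
  have hΦY : ∀ f ∈ Φ, f ∈ Y := fun f hf => Submodule.subset_span hf
  have Csm : ∀ (N : Submodule F[X] W) (c : F) (v : W), v ∈ N → c • v ∈ N := by
    intro N c v hv
    rw [← C_smul]
    exact N.smul_mem _ hv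
  -- step 1
  have step1 : ∀ o ∈ O, ∃ p : F[X], p ≠ 0 ∧ p • o ∈ Y := by
    intro o ho
    have h1 : ∀ i : ℕ, ∃ o' ∈ O, (X ^ i : F[X]) • o - o' ∈ Y := by
      intro i
      induction i with
      | zero => exact ⟨o, ho, by simp⟩
      | succ i ih =>
        obtain ⟨o', ho', h⟩ := ih
        have a1 : x o' ∈ O ⊔ Φ := hA (Submodule.mem_map_of_mem ho')
        obtain ⟨o'', ho'', f, hf, hof⟩ := Submodule.mem_sup.1 a1
        refine ⟨o'', ho'', ?_⟩
        have e : (X ^ (i + 1) : F[X]) • o - o'' = (X : F[X]) • ((X ^ i : F[X]) • o - o') + f := by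
          rw [smul_sub, ← mul_smul, ← pow_succ', X_smul o', ← hof]
          abel
        rw [e]
        exact Y.add_mem (Y.smul_mem _ h) (hΦY f hf)
    choose o' ho' hoY using h1
    have h2 : ¬ LinearIndependent F (fun i : Fin (finrank F O + 1) => (⟨o' i, ho' i⟩ : O)) := by
      intro h
      have := h.fintype_card_le_finrank
      simp at this
    rw [Fintype.not_linearIndependent_iff] at h2
    obtain ⟨g, hg, i0, hi0⟩ := h2
    refine ⟨∑ i, C (g i) * X ^ (i : ℕ), ?_, ?_⟩
    · intro h
      apply hi0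
      have := congrArg (fun q => coeff q (i0 : ℕ)) h
      simp only [finsetSum_coeff, coeff_C_mul, coeff_X_pow, coeff_zero] at this
      rw [Finset.sum_eq_single i0] at this
      · simpa using this
      · intro b _ hb
        rw [if_neg]
        · simp
        · intro h; apply hb; exact Fin.ext h.symm
      · simp
    · have hg' : ∑ i : Fin (finrank F O + 1), g i • o' i = 0 := by
        have := congrArg (Subtype.val) hg
        simpa using this
      have e : (∑ i : Fin (finrank F O + 1), C (g i) * X ^ (i : ℕ) : F[X]) • o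
          = ∑ i : Fin (finrank F O + 1), g i • ((X ^ (i : ℕ) : F[X]) • o - o' i) := by
        rw [Finset.sum_smul]
        simp_rw [mul_smul, C_smul, smul_sub]
        rw [Finset.sum_sub_distrib, hg', sub_zero]
      rw [e]
      exact Y.sum_mem (fun i _ => Csm Y _ _ (hoY i))
  -- common D
  obtain ⟨D, hD0, hDO⟩ : ∃ D : F[X], D ≠ 0 ∧ ∀ o ∈ O, D • o ∈ Y := by
    let b := Module.finBasis F O
    choose p hp0 hpY using fun j => step1 (b j : W) (b j).2
    refine ⟨∏ j, p j, Finset.prod_ne_zero_iff.2 (fun j _ => hp0 j), ?_⟩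
    intro o ho
    have e : o = ∑ j, (b.repr ⟨o, ho⟩ j) • (b j : W) := by
      have h := congrArg O.subtype (b.sum_repr ⟨o, ho⟩)
      rw [map_sum] at h
      simpa only [map_smul, Submodule.subtype_apply] using h.symm
    rw [e, Finset.smul_sum]
    refine Y.sum_mem (fun j _ => ?_)
    rw [← C_smul, ← mul_smul, mul_comm, mul_smul]
    refine Y.smul_mem _ ?_
    rw [← Finset.prod_erase_mul _ _ (Finset.mem_univ j), mul_smul]
    exact Y.smul_mem _ (hpY j)
  -- step 2
  have step2 : ∀ y ∈ Y, D • y ∈ Y.map τX := by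
    intro y hy
    have hle : Y ≤ (Y.map τX).comap (LinearMap.lsmul F[X] W D) := by
      rw [hY, Submodule.span_le]
      intro f hf
      obtain ⟨z, hz, hzf⟩ := hB hf
      obtain ⟨o, ho, f', hf', hof⟩ := Submodule.mem_sup.1 hz
      rw [SetLike.mem_coe, Submodule.mem_comap, LinearMap.lsmul_apply]
      refine ⟨D • z, ?_, ?_⟩
      · rw [← hof, smul_add]
        exact Y.add_mem (hDO o ho) (Y.smul_mem _ (hΦY f' hf'))
      · rw [τX_apply, hcomm, hzf]
    exact hle hy
  -- step 3
  have step3 : ∀ (i : ℕ) (y : W), y ∈ Y.map (τX ^ i) → D • y ∈ Y.map (τX ^ (i + 1)) := by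
    rintro i _ ⟨y, hy, rfl⟩
    obtain ⟨z, hz, hzy⟩ := step2 y hy
    refine ⟨z, hz, ?_⟩
    rw [pow_succ, Module.End.mul_apply, hzy, map_smul]
  have step3' : ∀ (i k : ℕ) (y : W), y ∈ Y.map (τX ^ i) → D ^ k • y ∈ Y.map (τX ^ (i + k)) := by
    intro i k
    induction k with
    | zero => intro y hy; simpa using hy
    | succ k ih =>
      intro y hy
      rw [pow_succ', mul_smul, ← add_assoc]
      exact step3 _ _ (ih y hy)
  have step4 : ∀ (I : ℕ) (v : W), v ∈ (⨆ i ∈ Finset.range (I + 1), O.map (τ ^ i)) →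
      D ^ (I + 1) • v ∈ Y.map (τX ^ I) := by
    intro I v hv
    induction hv using Submodule.iSup_induction' with
    | zero => simp
    | add a b _ _ ha hb => rw [smul_add]; exact Submodule.add_mem _ ha hb
    | mem i v hv =>
      by_cases hi : i ∈ Finset.range (I + 1)
      · simp only [hi, iSup_pos] at hv
        obtain ⟨o, ho, rfl⟩ := hv
        have hi' : i ≤ I := by simpa [Nat.lt_succ_iff] using hi
        have e : (D ^ (I + 1)) • (τ ^ i) o = D ^ i • (D ^ (I - i) • (D • (τ ^ i) o)) := by
          rw [← mul_smul, ← mul_smul, ← pow_add, ← pow_succ]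
          congr 2
          omega
        rw [e]
        refine Submodule.smul_mem _ _ ?_
        have h1 : D • (τ ^ i) o ∈ Y.map (τX ^ i) := ⟨D • o, hDO o ho, by rw [map_smul, τXpow]⟩
        have h2 := step3' i (I - i) _ h1
        rwa [Nat.add_sub_cancel' hi'] at h2
      · simp only [hi] at hv
        simp at hv
        rw [hv]; simp
  -- common I
  choose J hJ using hO
  set I : ℕ := Finset.univ.sup J with hI
  have hwI : ∀ j, D ^ (I + 1) • w j ∈ Y.map (τX ^ I) := by
    intro j
    apply step4
    have hle : (⨆ i ∈ Finset.range (J j + 1), O.map (τ ^ i)) ≤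
        ⨆ i ∈ Finset.range (I + 1), O.map (τ ^ i) := by
      apply biSup_mono
      intro i hi
      have : J j ≤ I := Finset.le_sup (f := J) (Finset.mem_univ j)
      simp only [Finset.mem_range] at hi ⊢
      omega
    exact hle (hJ j)
  let b := Module.finBasis F Φ
  let S : Set W := Set.range (fun k : Fin (finrank F Φ) => (τ ^ I) (b k : W))
  have hspan : Y.map (τX ^ I) ≤ Submodule.span F[X] S := by
    rw [Submodule.map_le_iff_le_comap, hY, Submodule.span_le]
    intro f hf
    rw [SetLike.mem_coe, Submodule.mem_comap, τXpow]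
    have e : f = ∑ j, (b.repr ⟨f, hf⟩ j) • (b j : W) := by
      have h := congrArg Φ.subtype (b.sum_repr ⟨f, hf⟩)
      rw [map_sum] at h
      simpa only [map_smul, Submodule.subtype_apply] using h.symm
    rw [e, map_sum]
    refine Submodule.sum_mem _ (fun k _ => ?_)
    rw [map_smul]
    exact Csm _ _ _ (Submodule.subset_span ⟨k, rfl⟩)
  have hnli : ¬ LinearIndependent F[X] (fun j => D ^ (I + 1) • w j) := by
    intro h
    classical
    have : Fintype S := Set.fintypeRange _
    have h1 := linearIndependent_le_span' _ h S (by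
      rintro _ ⟨j, rfl⟩
      exact hspan (hwI j))
    have h2 : Fintype.card S ≤ finrank F Φ := by
      have := Fintype.card_le_of_surjective
        (Set.rangeFactorization (fun k : Fin (finrank F Φ) => (τ ^ I) (b k : W)))
        Set.rangeFactorization_surjective
      simpa using this
    rw [Cardinal.mk_fintype] at h1
    have h3 : Fintype.card ι ≤ Fintype.card S := by exact_mod_cast h1
    omega
  rw [Fintype.not_linearIndependent_iff] at hnli
  obtain ⟨g, hg, i0, hi0⟩ := hnli
  refine ⟨fun j => g j * D ^ (I + 1), ?_, ?_⟩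
  · intro h
    have := congrFun h i0
    simp only [Pi.zero_apply, mul_eq_zero] at this
    rcases this with h | h
    · exact hi0 h
    · exact hD0 (pow_eq_zero_iff (by omega) |>.1 h)
  · rw [← hg]
    refine Finset.sum_congr rfl (fun j _ => ?_)
    rw [← smul_def, mul_smul]

theorem rank_lemma {F V : Type*} [Field F] [AddCommGroup V] [Module F V]
    (t M : Module.End F V) (hc : Commute t M) (O : Submodule F V) [Module.Finite F O]
    (S : Finset V)
    (hA : ∀ x ∈ O, M x ∈ O ⊔ Submodule.span F (S : Set V))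
    (hB : ∀ y ∈ S, y ∈ (O ⊔ Submodule.span F (S : Set V)).map t)
    {ι : Type*} [Fintype ι] (hι : S.card < Fintype.card ι) (w : ι → V)
    (hw : ∀ j, w j ∈ ⨆ i : ℕ, O.map (t ^ i)) :
    ∃ p : ι → F[X], p ≠ 0 ∧ ∑ j, aeval M (p j) (w j) = 0 := by
  have : FiniteDimensional F (Submodule.span F (S : Set V)) :=
    Module.Finite.span_finset F S
  refine rank_aux (O := O) (τ := t) (x := M) (n := S.card) ?_ (Submodule.span F (S : Set V))
    (finrank_span_finset_le_card S) ?_ ?_ hι w ?_
  · intro v
    have h := LinearMap.congr_fun hc.eq v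
    exact h.symm
  · rintro _ ⟨x, hx, rfl⟩
    exact hA x hx
  · rw [Submodule.span_le]
    intro y hy
    exact hB y hy
  · intro j
    obtain ⟨s, hs⟩ := (Submodule.mem_iSup_iff_exists_finset).1 (hw j)
    refine ⟨s.sup id, ?_⟩
    refine (biSup_mono ?_ : (⨆ i ∈ s, O.map (t ^ i)) ≤ _) hs
    intro i hi
    have : i ≤ s.sup id := Finset.le_sup (f := id) hi
    rw [Finset.mem_range]
    omega

end Pool.Agent.Koe
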