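import Pool.Agent.Koe.Defs

/-!
# Weights (lemma 2 of /team-store/koethe.md)
-/

set_option autoImplicit false

namespace Pool.Agent.Koe

open Polynomial

variable {F : Type*} [Field F]

/-- every element lies in a finite dimensional subspace stable under the derivatives -/
private lemma exists_stable (x : Fr F) : ∃ O : Submodule F (Fr F), Module.Finite F O ∧ x ∈ O ∧
    ∀ c, ∀ y ∈ O, D c y ∈ O := by
  induction x using FreeAlgebra.induction with
  | grade0 r =>
    refine ⟨Submodule.span F {1}, inferInstance, ?_, ?_⟩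
    · rw [Algebra.algebraMap_eq_smul_one]
      exact Submodule.smul_mem _ _ (Submodule.mem_span_singleton_self _)
    · intro c y hy
      obtain ⟨a, rfl⟩ := Submodule.mem_span_singleton.1 hy
      rw [map_smul, D_one, smul_zero]
      exact Submodule.zero_mem _
  | grade1 c' =>
    refine ⟨Submodule.span F {1, lt F c'}, ?_, ?_, ?_⟩
    · exact Module.Finite.span_of_finite F (Set.toFinite _)
    · exact Submodule.subset_span (by simp)
    · intro c y hy
      obtain ⟨a, b, rfl⟩ := Submodule.mem_span_pair.1 hy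
      rw [map_add, map_smul, map_smul, D_one, smul_zero, zero_add, D_lt]
      refine Submodule.smul_mem _ _ ?_
      split_ifs
      · exact Submodule.subset_span (by simp)
      · exact Submodule.zero_mem _
  | add x y hx hy =>
    obtain ⟨O₁, f₁, m₁, s₁⟩ := hx
    obtain ⟨O₂, f₂, m₂, s₂⟩ := hy
    refine ⟨O₁ ⊔ O₂, inferInstance, Submodule.add_mem_sup m₁ m₂, ?_⟩
    intro c z hz
    obtain ⟨u, hu, v, hv, rfl⟩ := Submodule.mem_sup.1 hz
    rw [map_add]
    exact Submodule.add_mem_sup (s₁ c u hu) (s₂ c v hv)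
  | mul x y hx hy =>
    obtain ⟨O₁, f₁, m₁, s₁⟩ := hx
    obtain ⟨O₂, f₂, m₂, s₂⟩ := hy
    refine ⟨O₁.map (LinearMap.mulRight F y) ⊔ O₂, inferInstance, ?_, ?_⟩
    · exact Submodule.mem_sup_left ⟨x, m₁, rfl⟩
    · intro c z hz
      obtain ⟨u, hu, v, hv, rfl⟩ := Submodule.mem_sup.1 hz
      obtain ⟨w, hw, rfl⟩ := hu
      rw [map_add, LinearMap.mulRight_apply, D_mul, add_assoc]
      refine Submodule.add_mem_sup ⟨D c w, s₁ c w hw, rfl⟩ ?_
      exact Submodule.add_mem _ (Submodule.smul_mem _ _ (s₂ c y m₂)) (s₂ c v hv)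

/-- every `g` has a finite dimensional space of states: the set of `x` which lie in a finite
dimensional `D`-stable subspace is closed under sums and products (for `x * y` take
`O_x * y + O_y`). -/
theorem exists_St (g : Fr F) : ∃ O : Submodule F (Fr F), St g O := by
  obtain ⟨O, hf, hg, hs⟩ := exists_stable g
  exact ⟨O, ⟨hf, fun c => hs c g hg, hs⟩⟩

private lemma T_lt_cst (g : Fr F) (c : Bool) (x : Fr F) :
    T g (lt F c) (cst x) = cst (D c x) + eps x • tau (cst (D c g)) := by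
  rw [T_lt]
  funext n
  cases n with
  | zero => simp
  | succ n =>
    cases n with
    | zero => simp
    | succ n => simp

theorem Wt_lt (c : Bool) : Wt (lt F c) 1 := by
  classical
  intro g O _ hO
  refine ⟨{tau (cst (D c g))}, by simp, ?_, ?_⟩
  · rintro x ⟨o, ho, rfl⟩
    rw [T_lt_cst]
    refine Submodule.add_mem_sup ⟨D c o, hO.DO c o ho, rfl⟩ (Submodule.smul_mem _ _ ?_)
    exact Submodule.subset_span (by simp)
  · intro y hy
    rw [Finset.mem_singleton] at hy
    rw [hy]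
    exact ⟨cst (D c g), Submodule.mem_sup_left ⟨D c g, hO.Dg c, rfl⟩, rfl⟩

theorem Wt_algebraMap (r : F) : Wt (algebraMap F (Fr F) r) 0 := by
  classical
  intro g O _ _
  refine ⟨∅, by simp, ?_, by simp⟩
  intro x hx
  rw [AlgHom.commutes, Module.algebraMap_end_apply]
  exact Submodule.mem_sup_left (Submodule.smul_mem _ _ hx)

private lemma tau_T (g s : Fr F) (v : V F) : T g s (tau v) = tau (T g s v) := by
  have h := (tau_commute g s).eq
  exact (LinearMap.congr_fun h v).symm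

private lemma tau_pow_T (g s : Fr F) (i : ℕ) (v : V F) :
    T g s ((tau ^ i) v) = (tau ^ i) (T g s v) := by
  have h := ((tau_commute g s).pow_left i).eq
  exact (LinearMap.congr_fun h v).symm

/-- `S = S₁ ∪ T s₁ (S₂)` -/
theorem Wt_mul {s₁ s₂ : Fr F} {n₁ n₂ : ℕ} (h₁ : Wt s₁ n₁) (h₂ : Wt s₂ n₂) :
    Wt (s₁ * s₂) (n₁ + n₂) := by
  classical
  intro g O hg hO
  obtain ⟨S₁, c₁, A₁, B₁⟩ := h₁ g O hg hO
  obtain ⟨S₂, c₂, A₂, B₂⟩ := h₂ g O hg hO
  have hle1 : CO O ⊔ Submodule.span F (S₁ : Set (V F)) ≤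
      CO O ⊔ Submodule.span F ((S₁ ∪ S₂.image (T g s₁) : Finset (V F)) : Set (V F)) := by
    refine sup_le_sup_left (Submodule.span_mono ?_) _
    intro y hy
    rw [Finset.mem_coe, Finset.mem_union]
    exact Or.inl hy
  have hT : ∀ z ∈ CO O ⊔ Submodule.span F (S₂ : Set (V F)), T g s₁ z ∈
      CO O ⊔ Submodule.span F ((S₁ ∪ S₂.image (T g s₁) : Finset (V F)) : Set (V F)) := by
    intro z hz
    obtain ⟨u, hu, v, hv, rfl⟩ := Submodule.mem_sup.1 hz
    rw [map_add]
    refine Submodule.add_mem _ (hle1 (A₁ u hu)) (Submodule.mem_sup_right ?_)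
    have hv' : T g s₁ v ∈ (Submodule.span F (S₂ : Set (V F))).map (T g s₁) := ⟨v, hv, rfl⟩
    rw [Submodule.map_span] at hv'
    refine Submodule.span_mono ?_ hv'
    rintro y ⟨w, hw, rfl⟩
    rw [Finset.mem_coe, Finset.mem_union, Finset.mem_image]
    exact Or.inr ⟨w, hw, rfl⟩
  refine ⟨S₁ ∪ S₂.image (T g s₁), ?_, ?_, ?_⟩
  · exact (Finset.card_union_le _ _).trans (add_le_add c₁ (Finset.card_image_le.trans c₂))
  · intro x hx
    rw [map_mul, Module.End.mul_apply]
    exact hT _ (A₂ x hx)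
  · intro y hy
    rw [Finset.mem_union, Finset.mem_image] at hy
    rcases hy with hy | ⟨w, hw, rfl⟩
    · exact Submodule.map_mono hle1 (B₁ y hy)
    · obtain ⟨z, hz, hz'⟩ := B₂ w hw
      refine ⟨T g s₁ z, hT z hz, ?_⟩
      rw [← tau_T, hz']

theorem Wt_add {s₁ s₂ : Fr F} {n₁ n₂ : ℕ} (h₁ : Wt s₁ n₁) (h₂ : Wt s₂ n₂) :
    Wt (s₁ + s₂) (n₁ + n₂) := by
  classical
  intro g O hg hO
  obtain ⟨S₁, c₁, A₁, B₁⟩ := h₁ g O hg hO
  obtain ⟨S₂, c₂, A₂, B₂⟩ := h₂ g O hg hO
  have hle1 : CO O ⊔ Submodule.span F (S₁ : Set (V F)) ≤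
      CO O ⊔ Submodule.span F ((S₁ ∪ S₂ : Finset (V F)) : Set (V F)) := by
    refine sup_le_sup_left (Submodule.span_mono ?_) _
    intro y hy
    rw [Finset.mem_coe, Finset.mem_union]
    exact Or.inl hy
  have hle2 : CO O ⊔ Submodule.span F (S₂ : Set (V F)) ≤
      CO O ⊔ Submodule.span F ((S₁ ∪ S₂ : Finset (V F)) : Set (V F)) := by
    refine sup_le_sup_left (Submodule.span_mono ?_) _
    intro y hy
    rw [Finset.mem_coe, Finset.mem_union]
    exact Or.inr hy
  refine ⟨S₁ ∪ S₂, (Finset.card_union_le _ _).trans (add_le_add c₁ c₂), ?_, ?_⟩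
  · intro x hx
    rw [map_add, LinearMap.add_apply]
    exact Submodule.add_mem _ (hle1 (A₁ x hx)) (hle2 (A₂ x hx))
  · intro y hy
    rw [Finset.mem_union] at hy
    rcases hy with hy | hy
    · exact Submodule.map_mono hle1 (B₁ y hy)
    · exact Submodule.map_mono hle2 (B₂ y hy)

theorem exists_Wt (s : Fr F) : ∃ n, Wt s n := by
  induction s using FreeAlgebra.induction with
  | grade0 r => exact ⟨0, Wt_algebraMap r⟩
  | grade1 c => exact ⟨1, Wt_lt c⟩
  | mul x y hx hy =>
    obtain ⟨n, hn⟩ := hx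
    obtain ⟨m, hm⟩ := hy
    exact ⟨n + m, Wt_mul hn hm⟩
  | add x y hx hy =>
    obtain ⟨n, hn⟩ := hx
    obtain ⟨m, hm⟩ := hy
    exact ⟨n + m, Wt_add hn hm⟩

theorem Wt_pow {s : Fr F} {n : ℕ} (h : Wt s n) (k : ℕ) : Wt (s ^ k) (k * n) := by
  induction k with
  | zero =>
    have := Wt_algebraMap (F := F) 1
    rw [map_one] at this
    rw [pow_zero, zero_mul]
    exact this
  | succ k ih =>
    rw [pow_succ, Nat.succ_mul]
    exact Wt_mul ih h

/-- `O[τ]` is stable under all `T g s` -/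
theorem T_mem_WO {g : Fr F} {O : Submodule F (Fr F)} (hO : St g O) (s : Fr F) {v : V F}
    (hv : v ∈ WO O) : T g s v ∈ WO O := by
  induction s using FreeAlgebra.induction generalizing v with
  | grade0 r =>
    rw [AlgHom.commutes, Module.algebraMap_end_apply]
    exact Submodule.smul_mem _ _ hv
  | grade1 c =>
    have h : WO O ≤ (WO O).comap (T g (lt F c)) := by
      refine iSup_le fun i => ?_
      rintro y ⟨x, ⟨o, ho, rfl⟩, rfl⟩
      rw [Submodule.mem_comap, tau_pow_T, T_lt_cst, map_add, map_smul]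
      refine Submodule.add_mem _ ?_ (Submodule.smul_mem _ _ ?_)
      · exact Submodule.mem_iSup_of_mem i ⟨_, ⟨D c o, hO.DO c o ho, rfl⟩, rfl⟩
      · refine Submodule.mem_iSup_of_mem (i + 1) ⟨_, ⟨D c g, hO.Dg c, rfl⟩, ?_⟩
        rw [pow_succ, Module.End.mul_apply]
    exact h hv
  | mul x y hx hy =>
    rw [map_mul, Module.End.mul_apply]
    exact hx (hy hv)
  | add x y hx hy =>
    rw [map_add, LinearMap.add_apply]
    exact Submodule.add_mem _ (hx hv) (hy hv)

/-- if `T g s` kills `cst x` for `x ∈ O` then it kills `O[τ]` -/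
theorem Kl_WO {g : Fr F} {O : Submodule F (Fr F)} {s : Fr F} (h : Kl g O s) {v : V F}
    (hv : v ∈ WO O) : T g s v = 0 := by
  have h1 : WO O ≤ LinearMap.ker (T g s) := by
    refine iSup_le fun i => ?_
    rintro y ⟨x, ⟨o, ho, rfl⟩, rfl⟩
    rw [LinearMap.mem_ker, tau_pow_T, h o ho, map_zero]
  exact h1 hv

end Pool.Agent.Koe
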