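import Pool.Agent.Koe.Defs
import Pool.Agent.Koe.Rank
import Pool.Agent.Koe.Wts

/-!
# The killing lemma (lemma 4 of /team-store/koethe.md)
-/

set_option autoImplicit false

namespace Pool.Agent.Koe

open Polynomial

variable {F : Type*} [Field F] {K : Type*} [Field K] [Algebra F K]

/-- `1, t, …, t^(D-1)` are independent over `K[Z]`, `D = natDegree Z ≥ 1`: the non-zero terms
`(P j).comp Z * X ^ j` have different degrees (`Polynomial.degree_sum_eq_of_disjoint`). -/
theorem comp_indep {Z : K[X]} (hZ : 1 ≤ Z.natDegree) (P : Fin Z.natDegree → K[X])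
    (h : ∑ j, (P j).comp Z * X ^ (j : ℕ) = 0) : ∀ j, P j = 0 := by
  have hZ0 : Z.natDegree ≠ 0 := by omega
  have hcomp : ∀ j, (P j).comp Z = 0 → P j = 0 := by
    intro j hj
    by_contra hne
    have h1 := (Polynomial.comp_eq_zero_iff).1 hj
    rcases h1 with h1 | ⟨_, h2⟩
    · exact hne h1
    · apply hZ0
      rw [h2, Polynomial.natDegree_C]
  have hdeg : ∀ j, (P j).comp Z * X ^ (j : ℕ) ≠ 0 →
      ((P j).comp Z * X ^ (j : ℕ)).natDegree = (P j).natDegree * Z.natDegree + (j : ℕ) := by
    intro j hj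
    have h1 : (P j).comp Z ≠ 0 := left_ne_zero_of_mul hj
    rw [Polynomial.natDegree_mul h1 (pow_ne_zero _ X_ne_zero), Polynomial.natDegree_comp,
      Polynomial.natDegree_X_pow]
  have hpair : Set.Pairwise {j | j ∈ (Finset.univ : Finset (Fin Z.natDegree)) ∧
      (fun j : Fin Z.natDegree => (P j).comp Z * X ^ (j : ℕ)) j ≠ 0}
      (Function.onFun Ne (Polynomial.degree ∘ fun j : Fin Z.natDegree =>
        (P j).comp Z * X ^ (j : ℕ))) := by
    intro i hi j hj hij hd
    apply hij
    have hd' : ((P i).comp Z * X ^ (i : ℕ)).natDegree = ((P j).comp Z * X ^ (j : ℕ)).natDegree :=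
      Polynomial.natDegree_eq_natDegree hd
    rw [hdeg i hi.2, hdeg j hj.2] at hd'
    apply Fin.ext
    have h1 := congrArg (· % Z.natDegree) hd'
    simp only [Nat.mul_add_mod', Nat.mod_eq_of_lt i.2, Nat.mod_eq_of_lt j.2] at h1
    exact h1
  have hsum := Polynomial.degree_sum_eq_of_disjoint
    (fun j : Fin Z.natDegree => (P j).comp Z * X ^ (j : ℕ)) Finset.univ hpair
  rw [h, Polynomial.degree_zero] at hsum
  intro j
  have h2 : ((P j).comp Z * X ^ (j : ℕ)).degree = ⊥ := by
    rw [← le_bot_iff, hsum]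
    exact Finset.le_sup (f := fun j : Fin Z.natDegree => ((P j).comp Z * X ^ (j : ℕ)).degree)
      (Finset.mem_univ j)
  rw [Polynomial.degree_eq_bot] at h2
  rcases mul_eq_zero.1 h2 with h3 | h3
  · exact hcomp j h3
  · exact absurd h3 (pow_ne_zero _ X_ne_zero)

/-- the same with coefficients `a + w b`, `a b : F[X]`, `w ∉ F` (`aeval Z` of a polynomial over `F`
is `(P.map (algebraMap F K)).comp Z`) -/
theorem comp_indep' {w : K} (hw : w ∉ Set.range (algebraMap F K)) {Z : K[X]}
    (hZ : 1 ≤ Z.natDegree) (P : Fin Z.natDegree × Bool → F[X])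
    (h : ∑ j, aeval Z (P j) * ((if j.2 then Polynomial.C w else 1) * X ^ (j.1 : ℕ)) = 0) : P = 0 := by
  have hae : ∀ p : F[X], aeval Z p = (p.map (algebraMap F K)).comp Z := by
    intro p
    rw [Polynomial.comp_eq_aeval, Polynomial.aeval_map_algebraMap]
  have h1 : ∑ j : Fin Z.natDegree, ((P (j, false)).map (algebraMap F K) +
      Polynomial.C w * (P (j, true)).map (algebraMap F K)).comp Z * X ^ (j : ℕ) = 0 := by
    rw [← h, Fintype.sum_prod_type]
    refine Finset.sum_congr rfl fun j _ => ?_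
    rw [Fintype.sum_bool, hae, hae, Polynomial.add_comp, Polynomial.mul_comp, Polynomial.C_comp]
    simp only [if_true, Bool.false_eq_true, if_false]
    ring
  have h2 := comp_indep hZ _ h1
  have h3 : ∀ (j : Fin Z.natDegree) (n : ℕ), (P (j, false)).coeff n = 0 ∧ (P (j, true)).coeff n = 0 := by
    intro j n
    have h4 := congrArg (fun q => coeff q n) (h2 j)
    simp only [coeff_add, coeff_C_mul, coeff_map, coeff_zero] at h4
    have h5 : (P (j, true)).coeff n = 0 := by
      by_contra hne
      apply hw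
      refine ⟨-(P (j, false)).coeff n / (P (j, true)).coeff n, ?_⟩
      rw [map_div₀, map_neg]
      have h6 : algebraMap F K ((P (j, true)).coeff n) ≠ 0 := by
        rwa [Ne, map_eq_zero]
      rw [div_eq_iff h6]
      linear_combination -h4
    refine ⟨?_, h5⟩
    rw [h5, map_zero, mul_zero, add_zero, map_eq_zero] at h4
    exact h4
  funext ⟨j, b⟩
  ext n
  cases b
  · exact (h3 j n).1
  · exact (h3 j n).2

/-- one vector: elements `e (j, ε) = r^j * p^(N-1-j) * (if ε then q else p)`, `N = natDegree (zeta w p)`,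
`zeta (e (j, ε)) = (C w or 1) * X^j * (zeta w p)^N`.  Rank lemma with `M = T g p`, `t = tau`,
`w_j = T g (e j) v`; `u = ∑ aeval p (P j) * e j`; `zeta w u ≠ 0` by `comp_indep'` and cancelling
`(zeta w p)^N`. -/
theorem kill_one {w : K} (hw : w ∉ Set.range (algebraMap F K)) {p q r : Fr F} {n : ℕ}
    (h : Tri w p q r n) {g : Fr F} (hg : eps g = 0) {O : Submodule F (Fr F)} (hO : St g O)
    {v : V F} (hv : v ∈ WO O) :
    ∃ u ∈ Algebra.adjoin F {p, q, r}, T g u v = 0 ∧ zeta w u ≠ 0 := by
  classical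
  obtain ⟨S, hS, hA, hB⟩ := h.wt g O hg hO
  have hfin : Module.Finite F (CO O) := by
    have := hO.fin
    unfold CO
    infer_instance
  set N : ℕ := (zeta w p).natDegree with hN
  have hNn : n < 2 * N := h.lt
  have hN1 : 1 ≤ N := by omega
  let e : Fin N × Bool → Fr F := fun j =>
    r ^ (j.1 : ℕ) * p ^ (N - 1 - (j.1 : ℕ)) * (if j.2 then q else p)
  have he : ∀ j, zeta w (e j) = ((if j.2 then Polynomial.C w else 1) * X ^ (j.1 : ℕ)) *
      (zeta w p) ^ N := by
    intro j
    have hj := j.1.2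
    have h1 : zeta w (if j.2 then q else p) = (if j.2 then Polynomial.C w else 1) * zeta w p := by
      split_ifs
      · exact h.hq
      · rw [one_mul]
    have h2 : (zeta w p) ^ N = (zeta w p) ^ (j.1 : ℕ) * (zeta w p) ^ (N - 1 - (j.1 : ℕ)) *
        zeta w p := by
      rw [← pow_add, ← pow_succ]
      congr 1
      omega
    change zeta w (r ^ (j.1 : ℕ) * p ^ (N - 1 - (j.1 : ℕ)) * (if j.2 then q else p)) = _
    rw [map_mul, map_mul, map_pow, map_pow, h1, h.hr, h2, mul_pow]
    ring
  obtain ⟨P, hP0, hP⟩ := rank_lemma (tau (F := F)) (T g p) (tau_commute g p) (CO O) S hA hB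
    (ι := Fin N × Bool)
    (by rw [Fintype.card_prod, Fintype.card_fin, Fintype.card_bool]; omega)
    (fun j => T g (e j) v) (fun j => T_mem_WO hO (e j) hv)
  have hmem : ∀ x ∈ ({p, q, r} : Set (Fr F)), x ∈ Algebra.adjoin F ({p, q, r} : Set (Fr F)) :=
    fun x hx => Algebra.subset_adjoin hx
  refine ⟨∑ j, aeval p (P j) * e j, ?_, ?_, ?_⟩
  · refine Subalgebra.sum_mem _ fun j _ => ?_
    refine Subalgebra.mul_mem _ ?_ ?_
    · have h1 : aeval p (P j) ∈ Algebra.adjoin F ({p} : Set (Fr F)) :=
        Polynomial.aeval_mem_adjoin_singleton F p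
      exact Algebra.adjoin_mono (Set.singleton_subset_iff.2 (by simp)) h1
    · refine Subalgebra.mul_mem _ (Subalgebra.mul_mem _ (Subalgebra.pow_mem _ (hmem r (by simp)) _)
        (Subalgebra.pow_mem _ (hmem p (by simp)) _)) ?_
      split_ifs
      · exact hmem q (by simp)
      · exact hmem p (by simp)
  · rw [map_sum, LinearMap.sum_apply, ← hP]
    refine Finset.sum_congr rfl fun j _ => ?_
    rw [map_mul, Module.End.mul_apply, Polynomial.aeval_algHom_apply]
  · intro h0
    apply hP0
    rw [map_sum] at h0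
    have h1 : (∑ j : Fin N × Bool, aeval (zeta w p) (P j) *
        ((if j.2 then Polynomial.C w else 1) * X ^ (j.1 : ℕ))) * (zeta w p) ^ N = 0 := by
      rw [← h0, Finset.sum_mul]
      refine Finset.sum_congr rfl fun j _ => ?_
      rw [map_mul, he j, Polynomial.aeval_algHom_apply]
      ring
    rcases mul_eq_zero.1 h1 with h2 | h2
    · exact comp_indep' hw hN1 P h2
    · exact absurd h2 (pow_ne_zero _ h.nz)

/-- all vectors of a basis of `O` one after the other -/
theorem kill {w : K} (hw : w ∉ Set.range (algebraMap F K)) {p q r : Fr F} {n : ℕ}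
    (h : Tri w p q r n) {g : Fr F} (hg : eps g = 0) {O : Submodule F (Fr F)} (hO : St g O) :
    ∃ u ∈ Algebra.adjoin F {p, q, r}, Kl g O u ∧ zeta w u ≠ 0 := by
  classical
  have hcst : ∀ x ∈ O, cst x ∈ WO O := by
    intro x hx
    refine Submodule.mem_iSup_of_mem 0 ⟨cst x, ⟨x, hx, rfl⟩, ?_⟩
    rw [pow_zero, Module.End.one_apply]
  have key : ∀ B : Finset (Fr F), (∀ x ∈ B, x ∈ O) → ∃ u ∈ Algebra.adjoin F {p, q, r},
      (∀ x ∈ B, T g u (cst x) = 0) ∧ zeta w u ≠ 0 := by
    intro B
    induction B using Finset.induction_on with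
    | empty =>
      intro _
      refine ⟨1, Subalgebra.one_mem _, by simp, ?_⟩
      rw [map_one]
      exact one_ne_zero
    | insert b B _ ih =>
      intro hB
      obtain ⟨u, hu, h1, h2⟩ := ih fun x hx => hB x (Finset.mem_insert_of_mem hx)
      obtain ⟨u', hu', h3, h4⟩ := kill_one hw h hg hO
        (T_mem_WO hO u (hcst b (hB b (Finset.mem_insert_self b B))))
      refine ⟨u' * u, Subalgebra.mul_mem _ hu' hu, ?_, ?_⟩
      · intro x hx
        rw [map_mul, Module.End.mul_apply]
        rcases Finset.mem_insert.1 hx with hx | hx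
        · rw [hx]; exact h3
        · rw [h1 x hx, map_zero]
      · rw [map_mul]
        exact mul_ne_zero h4 h2
  obtain ⟨B, hB⟩ := Module.Finite.iff_fg.1 hO.fin
  obtain ⟨u, hu, h1, h2⟩ := key B fun x hx => by
    rw [← hB]
    exact Submodule.subset_span hx
  refine ⟨u, hu, ?_, h2⟩
  intro x hx
  have hle : O ≤ LinearMap.ker ((T g u).comp cst) := by
    rw [← hB, Submodule.span_le]
    intro y hy
    exact h1 y hy
  exact hle hx

end Pool.Agent.Koe
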