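import Pool.Agent.Koe.Seq

/-!
# The ring (step 6 of /team-store/koethe.md)

`R = A / I`, `I = {x | phi (P j) (f' x f) = 0 for all j, f, f'}` (a two-sided ideal), `F = F_2`,
`K = F_4` (as `AdjoinRoot (X^2 + X + 1)`), `N` = image of the kernel of `eps`.
Pairing with matrices: `W = !![0, 1; 1, 1]`, `X = a + b W`; `J : K →+* M_2(F)`, `w ↦ W`;
the functional `phi s` applied entrywise to `X^m` is `J (coeff m (zeta w s))`.
-/

set_option autoImplicit false

namespace Pool.Agent.Koe

open Polynomial

section main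

/-- the polynomial `X^2 + X + 1` over `F_2` -/
noncomputable def Main_f : (ZMod 2)[X] := X ^ 2 + X + 1

theorem Main_f_aeval {A : Type} [Semiring A] [Algebra (ZMod 2) A] (x : A) :
    aeval x Main_f = x ^ 2 + x + 1 := by
  unfold Main_f
  simp only [map_add, map_pow, aeval_X, map_one]

theorem Main_f_natDegree : Main_f.natDegree = 2 := by
  unfold Main_f
  compute_degree!

theorem Main_f_irr : Irreducible Main_f := by
  apply Polynomial.irreducible_of_degree_le_three_of_not_isRoot
  · rw [Main_f_natDegree]; simp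
  · intro x
    unfold Main_f
    simp only [IsRoot.def, eval_add, eval_pow, eval_X, eval_one]
    revert x
    decide

instance Main_fact : Fact (Irreducible Main_f) := ⟨Main_f_irr⟩

/-- the field with four elements -/
noncomputable abbrev Main_K : Type := AdjoinRoot Main_f

/-- the generator of the field with four elements -/
noncomputable def Main_w : Main_K := AdjoinRoot.root Main_f

/-- the matrix of the multiplication by `w` -/
def Main_W : Matrix (Fin 2) (Fin 2) (ZMod 2) := !![0, 1; 1, 1]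

theorem Main_W_root : aeval Main_W Main_f = 0 := by
  unfold Main_f Main_W
  simp only [map_add, map_pow, aeval_X, map_one]
  decide

/-- the representation `F_4 → M_2(F_2)` -/
noncomputable def Main_J : Main_K →+* Matrix (Fin 2) (Fin 2) (ZMod 2) :=
  Ideal.Quotient.lift _ (aeval Main_W : (ZMod 2)[X] →ₐ[(ZMod 2)] Matrix (Fin 2) (Fin 2) (ZMod 2)).toRingHom (by
    intro a ha
    obtain ⟨c, rfl⟩ := Ideal.mem_span_singleton'.mp ha
    change aeval Main_W (c * Main_f) = 0
    rw [map_mul, Main_W_root, mul_zero])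

theorem Main_J_w : Main_J Main_w = Main_W := by
  change aeval Main_W X = Main_W
  rw [aeval_X]

theorem Main_w_not_mem : Main_w ∉ Set.range (algebraMap (ZMod 2) Main_K) := by
  rintro ⟨r, hr⟩
  have h1 : aeval Main_w Main_f = 0 := by
    unfold Main_w
    exact AdjoinRoot.eval₂_root Main_f
  rw [Main_f_aeval, ← hr, ← map_pow, ← map_add, ← map_one (algebraMap (ZMod 2) Main_K), ← map_add] at h1
  have h3 : r ^ 2 + r + 1 = 0 := (algebraMap (ZMod 2) Main_K).injective (by rw [h1, map_zero])
  clear h1 hr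
  revert h3
  revert r
  decide

/-- the matrix `a + b W` -/
noncomputable def Main_X : Matrix (Fin 2) (Fin 2) (Fr (ZMod 2)) :=
  !![lt (ZMod 2) false, lt (ZMod 2) true; lt (ZMod 2) true, lt (ZMod 2) false + lt (ZMod 2) true]

/-- derivative of `Main_X` -/
def Main_Wc (c : Bool) : Matrix (Fin 2) (Fin 2) (ZMod 2) := if c then Main_W else 1

theorem Main_eps_X (i j : Fin 2) : eps (Main_X i j) = 0 := by
  fin_cases i <;> fin_cases j <;> simp [Main_X]

theorem Main_D_mul (c : Bool) (Y : Matrix (Fin 2) (Fin 2) (Fr (ZMod 2))) :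
    (Main_X * Y).map (D c) = (Main_Wc c).map (algebraMap (ZMod 2) (Fr (ZMod 2))) * Y := by
  ext i j
  rw [Matrix.map_apply, Matrix.mul_apply, Matrix.mul_apply, map_sum]
  refine Finset.sum_congr rfl fun k _ => ?_
  rw [D_mul, Main_eps_X, zero_smul, add_zero]
  congr 1
  cases c <;> fin_cases i <;> fin_cases k <;> simp [Main_X, Main_Wc, Main_W, D_lt]

theorem Main_phi_mul_lt (s : Fr (ZMod 2)) (c : Bool) (u : Fr (ZMod 2)) : phi (s * lt (ZMod 2) c) u = phi s (D c u) := by
  unfold phi
  rw [map_mul, dd_lt]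
  rfl

theorem Main_phi_add (s u v : Fr (ZMod 2)) : phi s (u + v) = phi s u + phi s v := by
  unfold phi
  rw [map_add, map_add]

theorem Main_phi_smul (s : Fr (ZMod 2)) (r : (ZMod 2)) (u : Fr (ZMod 2)) : phi s (r • u) = r * phi s u := by
  unfold phi
  rw [map_smul, map_smul, smul_eq_mul]

theorem Main_phi_zero (s : Fr (ZMod 2)) : phi s 0 = 0 := by
  unfold phi
  rw [map_zero, map_zero]

theorem Main_phi_sum (s : Fr (ZMod 2)) (f : Fin 2 → Fr (ZMod 2)) : phi s (∑ k, f k) = ∑ k, phi s (f k) := by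
  unfold phi
  rw [map_sum, map_sum]

/-- induction on the free algebra with multiplications by letters on the right -/
theorem Main_induction {C : Fr (ZMod 2) → Prop} (h1 : C 1) (hs : ∀ (r : (ZMod 2)) x, C x → C (r • x))
    (ha : ∀ x y, C x → C y → C (x + y)) (hl : ∀ x c, C x → C (x * lt (ZMod 2) c)) (x : Fr (ZMod 2)) : C x := by
  have key : ∀ y : Fr (ZMod 2), ∀ x, C x → C (x * y) := by
    intro y
    induction y using FreeAlgebra.induction with
    | grade0 r =>
      intro x hx
      have := hs r x hx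
      rwa [Algebra.smul_def, Algebra.commutes] at this
    | grade1 c => intro x hx; exact hl x c hx
    | mul y z hy hz => intro x hx; rw [← mul_assoc]; exact hz _ (hy _ hx)
    | add y z hy hz => intro x hx; rw [mul_add]; exact ha _ _ (hy _ hx) (hz _ hx)
  have := key x 1 h1
  rwa [one_mul] at this

/-- the pairing with the powers of the matrix -/
theorem Main_pair (s : Fr (ZMod 2)) (m : ℕ) :
    (Main_X ^ m).map (phi s) = Main_J ((zeta Main_w s).coeff m) := by
  revert m
  induction s using Main_induction with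
  | h1 =>
    intro m
    have h0 : ∀ u : Fr (ZMod 2), phi (1 : Fr (ZMod 2)) u = eps u := by
      intro u
      unfold phi
      rw [map_one]
      rfl
    have h2 : (Main_X ^ m).map (phi (1 : Fr (ZMod 2))) = (Main_X.map (eps (F := (ZMod 2)))) ^ m := by
      have h4 := map_pow (AlgHom.mapMatrix (m := Fin 2) (eps (F := (ZMod 2)))) Main_X m
      rw [AlgHom.mapMatrix_apply, AlgHom.mapMatrix_apply] at h4
      rw [← h4]
      ext i j
      rw [Matrix.map_apply, Matrix.map_apply, h0]
    have h3 : Main_X.map (eps (F := (ZMod 2))) = 0 := by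
      ext i j
      rw [Matrix.map_apply, Main_eps_X]
      rfl
    rw [h2, h3, map_one, coeff_one]
    cases m with
    | zero => simp
    | succ m => simp
  | hs r x hx =>
    intro m
    have h0 : ∀ u : Fr (ZMod 2), phi (r • x) u = r * phi x u := by
      intro u
      unfold phi
      rw [map_smul, LinearMap.smul_apply, map_smul, smul_eq_mul]
    have h2 : (Main_X ^ m).map (phi (r • x)) = r • (Main_X ^ m).map (phi x) := by
      ext i j
      rw [Matrix.map_apply, Matrix.smul_apply, Matrix.map_apply, h0, smul_eq_mul]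
    rw [h2, hx, map_smul, coeff_smul]
    exact (ZMod.map_smul Main_J r _).symm
  | ha x y hx hy =>
    intro m
    have h0 : ∀ u : Fr (ZMod 2), phi (x + y) u = phi x u + phi y u := by
      intro u
      unfold phi
      rw [map_add, LinearMap.add_apply, map_add]
    have h2 : (Main_X ^ m).map (phi (x + y)) =
        (Main_X ^ m).map (phi x) + (Main_X ^ m).map (phi y) := by
      ext i j
      rw [Matrix.map_apply, Matrix.add_apply, Matrix.map_apply, Matrix.map_apply, h0]
    rw [h2, hx, hy, map_add, coeff_add, map_add]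
  | hl x c hx =>
    intro m
    have hz : zeta Main_w (lt (ZMod 2) c) = Polynomial.C (if c then Main_w else 1) * X := by
      cases c
      · rw [zeta_false]; simp
      · rw [zeta_true]; simp
    have hW : Main_J (if c then Main_w else 1) = Main_Wc c := by
      cases c
      · simp [Main_Wc]
      · simp [Main_Wc, Main_J_w]
    cases m with
    | zero =>
      have h2 : (Main_X ^ 0).map (phi (x * lt (ZMod 2) c)) = 0 := by
        ext i j
        rw [Matrix.map_apply, Main_phi_mul_lt, pow_zero, Matrix.one_apply]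
        split_ifs
        · rw [D_one, Main_phi_zero]; rfl
        · rw [map_zero, Main_phi_zero]; rfl
      rw [h2, map_mul, hz, ← mul_assoc, mul_coeff_zero, coeff_X_zero, mul_zero, map_zero]
    | succ m =>
      have h2 : (Main_X ^ (m + 1)).map (phi (x * lt (ZMod 2) c)) =
          Main_Wc c * (Main_X ^ m).map (phi x) := by
        ext i j
        rw [Matrix.map_apply, Main_phi_mul_lt, pow_succ']
        have h3 := congrFun (congrFun (Main_D_mul c (Main_X ^ m)) i) j
        rw [Matrix.map_apply] at h3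
        rw [h3, Matrix.mul_apply, Matrix.mul_apply, Main_phi_sum]
        refine Finset.sum_congr rfl fun k _ => ?_
        rw [Matrix.map_apply, Matrix.map_apply, ← Algebra.smul_def, Main_phi_smul]
      rw [h2, hx, map_mul, hz, ← mul_assoc, coeff_mul_X, coeff_mul_C, mul_comm, map_mul, hW]

/-- the ideal of the elements orthogonal to all `P j` -/
noncomputable def Main_I (P : ℕ → Fr (ZMod 2)) : TwoSidedIdeal (Fr (ZMod 2)) :=
  TwoSidedIdeal.mk' {x | ∀ (j : ℕ) (f f' : Fr (ZMod 2)), phi (P j) (f' * x * f) = 0}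
    (by intro j f f'; rw [mul_zero, zero_mul, Main_phi_zero])
    (by
      intro x y hx hy j f f'
      rw [mul_add, add_mul, Main_phi_add, hx, hy, add_zero])
    (by
      intro x hx j f f'
      have h1 : f' * -x * f = (-1 : (ZMod 2)) • (f' * x * f) := by
        rw [neg_one_smul, mul_neg, neg_mul]
      rw [h1, Main_phi_smul, hx, mul_zero])
    (by
      intro x y hy j f f'
      rw [← mul_assoc]
      exact hy j f (f' * x))
    (by
      intro x y hx j f f'
      have h1 : f' * (x * y) * f = f' * x * (y * f) := by simp only [mul_assoc]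
      rw [h1]
      exact hx j (y * f) f')

theorem Main_mem_I (P : ℕ → Fr (ZMod 2)) (x : Fr (ZMod 2)) :
    x ∈ Main_I P ↔ ∀ (j : ℕ) (f f' : Fr (ZMod 2)), phi (P j) (f' * x * f) = 0 :=
  TwoSidedIdeal.mem_mk' _ _ _ _ _ _ _

/-- the ring -/
abbrev Main_R (P : ℕ → Fr (ZMod 2)) : Type := (Main_I P).ringCon.Quotient

/-- the projection -/
noncomputable def Main_pi (P : ℕ → Fr (ZMod 2)) : Fr (ZMod 2) →+* Main_R P := (Main_I P).ringCon.mk'

theorem Main_pi_surj (P : ℕ → Fr (ZMod 2)) : Function.Surjective (Main_pi P) :=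
  RingCon.mk'_surjective _

theorem Main_pi_eq (P : ℕ → Fr (ZMod 2)) (x y : Fr (ZMod 2)) :
    Main_pi P x = Main_pi P y ↔ x - y ∈ Main_I P := by
  rw [← TwoSidedIdeal.rel_iff]
  exact RingCon.eq _

/-- the image of the augmentation ideal -/
noncomputable def Main_N (P : ℕ → Fr (ZMod 2)) : TwoSidedIdeal (Main_R P) :=
  TwoSidedIdeal.mk' {x | ∃ g : Fr (ZMod 2), eps g = 0 ∧ Main_pi P g = x}
    ⟨0, map_zero _, map_zero _⟩
    (by
      rintro x y ⟨g, hg, rfl⟩ ⟨h, hh, rfl⟩
      exact ⟨g + h, by rw [map_add, hg, hh, add_zero], map_add _ _ _⟩)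
    (by
      rintro x ⟨g, hg, rfl⟩
      exact ⟨-g, by rw [map_neg, hg, neg_zero], map_neg _ _⟩)
    (by
      rintro x y ⟨g, hg, rfl⟩
      obtain ⟨h, rfl⟩ := Main_pi_surj P x
      exact ⟨h * g, by rw [map_mul, hg, mul_zero], map_mul _ _ _⟩)
    (by
      rintro x y ⟨g, hg, rfl⟩
      obtain ⟨h, rfl⟩ := Main_pi_surj P y
      exact ⟨g * h, by rw [map_mul, hg, zero_mul], map_mul _ _ _⟩)

theorem Main_mem_N (P : ℕ → Fr (ZMod 2)) (x : Main_R P) :
    x ∈ Main_N P ↔ ∃ g : Fr (ZMod 2), eps g = 0 ∧ Main_pi P g = x :=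
  TwoSidedIdeal.mem_mk' _ _ _ _ _ _ _

/-- the functional `phi (P j)` only depends on the class modulo the ideal -/
theorem Main_phi_congr (P : ℕ → Fr (ZMod 2)) (j : ℕ) {x y : Fr (ZMod 2)} (h : Main_pi P x = Main_pi P y) :
    phi (P j) x = phi (P j) y := by
  rw [Main_pi_eq, Main_mem_I] at h
  have h1 := h j 1 1
  rw [one_mul, mul_one] at h1
  have h2 : x = (x - y) + y := by rw [sub_add_cancel]
  rw [h2, Main_phi_add, h1, zero_add]

theorem Main_pow_ne (P : ℕ → Fr (ZMod 2)) (hP : ∀ j, j < (zeta Main_w (P j)).natDegree) {m k : ℕ}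
    (hmk : m < k) : (Main_X.map (Main_pi P)) ^ m ≠ (Main_X.map (Main_pi P)) ^ k := by
  intro h
  have hpow : ∀ n : ℕ, (Main_X.map (Main_pi P)) ^ n = (Main_X ^ n).map (Main_pi P) := by
    intro n
    have h4 := map_pow (RingHom.mapMatrix (m := Fin 2) (Main_pi P)) Main_X n
    rw [RingHom.mapMatrix_apply, RingHom.mapMatrix_apply] at h4
    exact h4.symm
  obtain ⟨l, hl⟩ : ∃ l, (zeta Main_w (P m)).natDegree = m + l :=
    ⟨_, (Nat.add_sub_cancel' (hP m).le).symm⟩
  have h5 : (Main_X.map (Main_pi P)) ^ (m + l) = (Main_X.map (Main_pi P)) ^ (k + l) := by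
    rw [pow_add, h, ← pow_add]
  rw [hpow, hpow] at h5
  have h6 : (Main_X ^ (m + l)).map (phi (P m)) = (Main_X ^ (k + l)).map (phi (P m)) := by
    ext i j
    rw [Matrix.map_apply, Matrix.map_apply]
    refine Main_phi_congr P m ?_
    have := congrFun (congrFun h5 i) j
    rwa [Matrix.map_apply, Matrix.map_apply] at this
  rw [Main_pair, Main_pair, ← hl, coeff_natDegree] at h6
  have h7 : (zeta Main_w (P m)).coeff (k + l) = 0 :=
    coeff_eq_zero_of_natDegree_lt (by omega)
  rw [h7, map_zero] at h6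
  have h8 : (zeta Main_w (P m)).leadingCoeff = 0 :=
    Main_J.injective (by rw [h6, map_zero])
  rw [leadingCoeff_eq_zero] at h8
  have h9 := hP m
  rw [h8, natDegree_zero] at h9
  exact Nat.not_lt_zero _ h9

end main

/-- the two-generated nil algebra and its matrix ring: a ring `R` with a nil ideal `N`, such that
every element of `R` lies in `N` or in `1 + N`, `2 = 0`, and `M_2(N)` contains a matrix `A` whose powers are all
different and non-zero. -/
theorem main_ring : ∃ (R : Type) (_ : Ring R) (N : TwoSidedIdeal R), (2 : R) = 0 ∧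
    (∀ x ∈ N, IsNilpotent x) ∧ (∀ x : R, x ∈ N ∨ x - 1 ∈ N) ∧
    ∃ A : Matrix (Fin 2) (Fin 2) R, (∀ i j, A i j ∈ N) ∧
      (∀ m k : ℕ, m ≠ k → A ^ m ≠ A ^ k) ∧ ∀ m : ℕ, A ^ m ≠ 0 := by
  obtain ⟨P, hP, hnil⟩ := exists_seq Main_w_not_mem
  have hne : ∀ m k : ℕ, m ≠ k →
      (Main_X.map (Main_pi P)) ^ m ≠ (Main_X.map (Main_pi P)) ^ k := by
    intro m k hmk
    rcases lt_or_gt_of_ne hmk with h | h
    · exact Main_pow_ne P hP h
    · exact (Main_pow_ne P hP h).symm
  refine ⟨Main_R P, inferInstance, Main_N P, ?_, ?_, ?_, Main_X.map (Main_pi P), ?_, hne, ?_⟩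
  · have h1 : (2 : Fr (ZMod 2)) = 0 := by
      have h2 : algebraMap (ZMod 2) (Fr (ZMod 2)) 2 = 0 := by
        have h3 : (2 : ZMod 2) = 0 := by decide
        rw [h3, map_zero]
      rwa [map_ofNat] at h2
    have h4 := congrArg (Main_pi P) h1
    rwa [map_ofNat, map_zero] at h4
  · intro x hx
    obtain ⟨g, hg, rfl⟩ := (Main_mem_N P x).mp hx
    obtain ⟨m, hm⟩ := hnil g hg
    refine ⟨m, ?_⟩
    rw [← map_pow, ← map_zero (Main_pi P), Main_pi_eq, Main_mem_I, sub_zero]
    exact hm
  · intro x
    obtain ⟨y, rfl⟩ := Main_pi_surj P x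
    have h1 : ∀ r : ZMod 2, r = 0 ∨ r = 1 := by decide
    rcases h1 (eps y) with h | h
    · exact Or.inl ((Main_mem_N P _).mpr ⟨y, h, rfl⟩)
    · refine Or.inr ((Main_mem_N P _).mpr ⟨y - 1, ?_, ?_⟩)
      · rw [map_sub, h, map_one, sub_self]
      · rw [map_sub, map_one]
  · intro i j
    exact (Main_mem_N P _).mpr ⟨Main_X i j, Main_eps_X i j, rfl⟩
  · intro m h
    refine hne m (m + 1) (by omega) ?_
    rw [pow_succ, h, zero_mul]

end Pool.Agent.Koe
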