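import Pool.Agent.Koe.Defs

/-!
# The vanishing lemma (lemma 1 of /team-store/koethe.md)
-/

set_option autoImplicit false

namespace Pool.Agent.Koe

open Polynomial

variable {F : Type*} [Field F]

/-- `Θ_m(u) = ∑_{j ≤ m} u_j g^(m-j) f` -/
noncomputable def theta (g f : Fr F) (m : ℕ) (u : V F) : Fr F :=
  ∑ j ∈ Finset.range (m + 1), u j * g ^ (m - j) * f

lemma theta_add (g f : Fr F) (m : ℕ) (u v : V F) :
    theta g f m (u + v) = theta g f m u + theta g f m v := by
  unfold theta
  rw [← Finset.sum_add_distrib]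
  refine Finset.sum_congr rfl fun j _ => ?_
  rw [Pi.add_apply, add_mul, add_mul]

lemma theta_smul (g f : Fr F) (m : ℕ) (r : F) (u : V F) :
    theta g f m (r • u) = r • theta g f m u := by
  unfold theta
  rw [Finset.smul_sum]
  refine Finset.sum_congr rfl fun j _ => ?_
  rw [Pi.smul_apply, smul_mul_assoc, smul_mul_assoc]

lemma theta_cst (g f : Fr F) (m : ℕ) (x : Fr F) : theta g f m (cst x) = x * g ^ m * f := by
  unfold theta
  rw [Finset.sum_range_succ', Finset.sum_eq_zero (fun j _ => by rw [cst_succ, zero_mul, zero_mul]),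
    cst_zero, zero_add, Nat.sub_zero]

lemma theta_tau (g f : Fr F) (m : ℕ) (v : V F) :
    theta g f m (tau v) = ∑ j ∈ Finset.range m, v j * g ^ (m - (j + 1)) * f := by
  unfold theta
  rw [Finset.sum_range_succ', tau_zero, zero_mul, zero_mul, add_zero]
  rfl

/-- the constant term of `theta` only sees the last coefficient -/
lemma eps_theta {g : Fr F} (hg : eps g = 0) (f : Fr F) {m : ℕ} {v : V F} (hv : v m = 0) :
    eps (theta g f m v) = 0 := by
  unfold theta
  rw [map_sum]
  refine Finset.sum_eq_zero fun j hj => ?_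
  rw [map_mul, map_mul, map_pow, hg]
  rcases Nat.lt_or_ge j m with h | h
  · rw [zero_pow (by omega), mul_zero, zero_mul]
  · have hj' : j = m := by have := Finset.mem_range.mp hj; omega
    rw [hj', hv, map_zero, zero_mul, zero_mul]

lemma D_pow_mul {g : Fr F} (hg : eps g = 0) (f : Fr F) (c : Bool) (k : ℕ) :
    D c (g ^ (k + 1) * f) = D c g * g ^ k * f := by
  rw [pow_succ', mul_assoc, D_mul, hg, zero_smul, add_zero, mul_assoc]

/-- the intertwining relation: product rule `D_mul`, `eps g = 0`, so `D c (g^(k+1) f) = D c g * g^k * f`. -/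
theorem D_theta {g : Fr F} (hg : eps g = 0) (f : Fr F) (m : ℕ) (u : V F) (c : Bool) :
    D c (theta g f m u) = theta g f m (T g (lt F c) u) + eps (u m) • D c f := by
  have h1 : T g (lt F c) u = hat (D c) u + tau (hat (E g c) u) := by
    rw [T_lt]; rfl
  rw [h1, theta_add, theta_tau]
  have h2 : D c (theta g f m u) =
      ∑ j ∈ Finset.range (m + 1), (D c (u j) * g ^ (m - j) * f + eps (u j) • D c (g ^ (m - j) * f)) := by
    unfold theta
    rw [map_sum]
    refine Finset.sum_congr rfl fun j _ => ?_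
    rw [mul_assoc, D_mul, mul_assoc]
  rw [h2, Finset.sum_add_distrib]
  have h3 : ∑ j ∈ Finset.range (m + 1), eps (u j) • D c (g ^ (m - j) * f) =
      (∑ j ∈ Finset.range m, hat (E g c) u j * g ^ (m - (j + 1)) * f) + eps (u m) • D c f := by
    rw [Finset.sum_range_succ, Nat.sub_self, pow_zero, one_mul]
    congr 1
    refine Finset.sum_congr rfl fun j hj => ?_
    have hj' := Finset.mem_range.mp hj
    obtain ⟨k, hk⟩ : ∃ k, m - j = k + 1 := ⟨m - j - 1, by omega⟩
    have hk' : m - (j + 1) = k := by omega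
    rw [hk, hk', D_pow_mul hg, hat_apply, E_apply, smul_mul_assoc, smul_mul_assoc]
  rw [h3]
  change (∑ j ∈ Finset.range (m + 1), D c (u j) * g ^ (m - j) * f) + _ =
    (∑ j ∈ Finset.range (m + 1), D c (u j) * g ^ (m - j) * f) + _ + _
  rw [add_assoc]

/-- `s` has length at most `L` (for `g`, `f`) -/
def Len (g f s : Fr F) (L : ℕ) : Prop :=
  ∀ (k m : ℕ) (u : V F), k + L ≤ m → (∀ j, k < j → u j = 0) →
    dd s (theta g f m u) = theta g f m (T g s u) ∧ ∀ j, k + L < j → T g s u j = 0

lemma Len.mono {g f s : Fr F} {L L' : ℕ} (h : Len g f s L) (hL : L ≤ L') : Len g f s L' := by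
  intro k m u hm hu
  obtain ⟨h1, h2⟩ := h k m u (by omega) hu
  exact ⟨h1, fun j hj => h2 j (by omega)⟩

lemma exists_Len (s : Fr F) : ∃ L : ℕ, ∀ g : Fr F, eps g = 0 → ∀ f : Fr F, Len g f s L := by
  induction s using FreeAlgebra.induction with
  | grade0 r =>
    refine ⟨0, fun g _ f k m u _ hu => ?_⟩
    have e1 : dd (algebraMap F (Fr F) r) (theta g f m u) = r • theta g f m u := by
      rw [AlgHom.commutes]; rfl
    have e2 : T g (algebraMap F (Fr F) r) u = r • u := by
      rw [AlgHom.commutes]; rfl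
    rw [e1, e2, theta_smul]
    exact ⟨rfl, fun j hj => by rw [Pi.smul_apply, hu j (by omega), smul_zero]⟩
  | grade1 c =>
    refine ⟨1, fun g hg f k m u hm hu => ?_⟩
    have e1 := D_theta hg f m u c
    rw [hu m (by omega), map_zero, zero_smul, add_zero] at e1
    have e2 := dd_lt (F := F) c
    unfold lt at e1 e2
    rw [e2]
    refine ⟨e1, fun j hj => ?_⟩
    have e3 := T_lt g c
    unfold lt at e3
    rw [e3]
    obtain ⟨i, rfl⟩ : ∃ i, j = i + 1 := ⟨j - 1, by omega⟩
    change D c (u (i + 1)) + eps (u i) • D c g = 0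
    rw [hu (i + 1) (by omega), hu i (by omega), map_zero, map_zero, zero_smul, add_zero]
  | mul x y hx hy =>
    obtain ⟨Lx, hx⟩ := hx
    obtain ⟨Ly, hy⟩ := hy
    refine ⟨Lx + Ly, fun g hg f k m u hm hu => ?_⟩
    obtain ⟨a1, a2⟩ := hy g hg f k m u (by omega) hu
    obtain ⟨b1, b2⟩ := hx g hg f (k + Ly) m (T g y u) (by omega) a2
    rw [map_mul, map_mul, Module.End.mul_apply, Module.End.mul_apply, a1]
    exact ⟨b1, fun j hj => b2 j (by omega)⟩
  | add x y hx hy =>
    obtain ⟨Lx, hx⟩ := hx
    obtain ⟨Ly, hy⟩ := hy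
    refine ⟨Lx + Ly, fun g hg f k m u hm hu => ?_⟩
    obtain ⟨a1, a2⟩ := hy g hg f k m u (by omega) hu
    obtain ⟨b1, b2⟩ := hx g hg f k m u (by omega) hu
    rw [map_add, map_add, LinearMap.add_apply, LinearMap.add_apply, a1, b1, theta_add]
    exact ⟨rfl, fun j hj => by rw [Pi.add_apply, a2 j (by omega), b2 j (by omega), add_zero]⟩

/-- every `s` has a length: for `m` large all pairings with `f' g^m f` vanish.
Proof: `L` = length of `s` (by induction on `s`: there is `L` such that for all `m`, `u` with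
`u j = 0` for `j > k`, `k + L ≤ m`: `dd s (theta g f m u) = theta g f m (T g s u)` and
`T g s u` vanishes beyond `k + L`); then `eps (theta g f m v) = 0` if `v j = 0` for `j ≥ m`. -/
theorem phi_len (s : Fr F) : ∃ L : ℕ, ∀ m, L < m → ∀ g : Fr F, eps g = 0 → ∀ f f' : Fr F,
    phi s (f' * g ^ m * f) = 0 := by
  obtain ⟨L, hL⟩ := exists_Len s
  refine ⟨L, fun m hm g hg f f' => ?_⟩
  obtain ⟨h1, h2⟩ := hL g hg f 0 m (cst f') (by omega) (fun j hj => by
    obtain ⟨i, rfl⟩ : ∃ i, j = i + 1 := ⟨j - 1, by omega⟩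
    exact cst_succ _ _)
  unfold phi
  rw [← theta_cst, h1]
  exact eps_theta hg f (h2 m (by omega))

/-- the error terms: sequences with values in `O` -/
private lemma T_O {g : Fr F} {O : Submodule F (Fr F)} (hO : St g O) (s : Fr F) :
    (∀ x : V F, (∀ j, x j ∈ O) → ∀ j, T g s x j ∈ O) ∧
      ∀ u : Fr F, ∀ j, (T g s (cst u) - cst (dd s u)) j ∈ O := by
  induction s using FreeAlgebra.induction with
  | grade0 r =>
    have e2 : ∀ u : V F, T g (algebraMap F (Fr F) r) u = r • u := by
      intro u; rw [AlgHom.commutes]; rfl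
    have e1 : ∀ u : Fr F, dd (algebraMap F (Fr F) r) u = r • u := by
      intro u; rw [AlgHom.commutes]; rfl
    refine ⟨fun x hx j => ?_, fun u j => ?_⟩
    · rw [e2, Pi.smul_apply]; exact O.smul_mem _ (hx j)
    · rw [e2, e1, map_smul, sub_self]; exact O.zero_mem
  | grade1 c =>
    have e3 := T_lt g c
    have e2 := dd_lt (F := F) c
    unfold lt at e2 e3
    rw [e2, e3]
    refine ⟨fun x hx j => ?_, fun u j => ?_⟩
    · cases j with
      | zero =>
        change D c (x 0) + 0 ∈ O
        rw [add_zero]; exact hO.DO c _ (hx 0)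
      | succ i =>
        change D c (x (i + 1)) + eps (x i) • D c g ∈ O
        exact O.add_mem (hO.DO c _ (hx _)) (O.smul_mem _ (hO.Dg c))
    · cases j with
      | zero =>
        change D c u + 0 - D c u ∈ O
        rw [add_zero, sub_self]; exact O.zero_mem
      | succ i =>
        change D c (cst u (i + 1)) + eps (cst u i) • D c g - 0 ∈ O
        rw [cst_succ, map_zero, zero_add, sub_zero]; exact O.smul_mem _ (hO.Dg c)
  | mul x y hx hy =>
    refine ⟨fun z hz j => ?_, fun u j => ?_⟩
    · rw [map_mul, Module.End.mul_apply]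
      exact hx.1 _ (hy.1 z hz) j
    · rw [map_mul, map_mul, Module.End.mul_apply, Module.End.mul_apply]
      have e : T g x (T g y (cst u)) - cst (dd x (dd y u)) =
          T g x (T g y (cst u) - cst (dd y u)) +
            (T g x (cst (dd y u)) - cst (dd x (dd y u))) := by
        rw [map_sub]; abel
      rw [e]
      exact O.add_mem (hx.1 _ (hy.2 u) j) (hx.2 _ j)
  | add x y hx hy =>
    refine ⟨fun z hz j => ?_, fun u j => ?_⟩
    · rw [map_add, LinearMap.add_apply]
      exact O.add_mem (hx.1 z hz j) (hy.1 z hz j)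
    · rw [map_add, map_add, LinearMap.add_apply, LinearMap.add_apply, map_add]
      have e : T g x (cst u) + T g y (cst u) - (cst (dd x u) + cst (dd y u)) =
          (T g x (cst u) - cst (dd x u)) + (T g y (cst u) - cst (dd y u)) := by abel
      rw [e]
      exact O.add_mem (hx.2 u j) (hy.2 u j)

private lemma tau_pow_cst (x : Fr F) (i j : ℕ) :
    ((tau (F := F)) ^ i) (cst x) j = if j = i then x else 0 := by
  induction i generalizing j with
  | zero =>
    cases j with
    | zero => rfl
    | succ j => rfl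
  | succ i ih =>
    rw [pow_succ', Module.End.mul_apply]
    cases j with
    | zero => rw [tau_zero, if_neg (by omega)]
    | succ j =>
      rw [tau_succ, ih]
      simp only [Nat.add_right_cancel_iff]

private lemma T_fin {g : Fr F} {O : Submodule F (Fr F)} {s : Fr F} (h : Kl g O s) {x : V F}
    (hx : ∀ j, x j ∈ O) {L : ℕ} (hL : ∀ j, L < j → x j = 0) : T g s x = 0 := by
  have e : x = ∑ i ∈ Finset.range (L + 1), ((tau (F := F)) ^ i) (cst (x i)) := by
    funext j
    rw [Finset.sum_apply]
    simp only [tau_pow_cst]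
    rw [Finset.sum_ite_eq]
    split_ifs with h1
    · rfl
    · exact hL j (by simpa using h1)
  rw [e, map_sum]
  refine Finset.sum_eq_zero fun i _ => ?_
  have hc : Commute ((tau (F := F)) ^ i) (T g s) := (tau_commute g s).pow_left i
  have h2 : T g s (((tau (F := F)) ^ i) (cst (x i))) = ((tau (F := F)) ^ i) (T g s (cst (x i))) := by
    rw [← Module.End.mul_apply, ← Module.End.mul_apply, hc.eq]
  rw [h2, h _ (hx i), map_zero]

/-- the vanishing lemma.  Proof: let `L` bound the lengths of all `b ∈ B`, `m ≥ 2 L + 1`.  For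
`s ∈ NonUnitalAlgebra.adjoin F B` one shows by `NonUnitalAlgebra.adjoin_induction`: for all `u : Fr F` and
all `x : V F` with `x j ∈ O` for all `j`, `x j = 0` for `j > L`, there is `x'` with the same two
properties and `dd s (theta g f m (cst u + x)) = theta g f m (cst (dd s u) + x')`.  (`b ∈ B`: as
`T g b` commutes with `tau` and kills `cst O` it kills `x`; `T g b (cst u) = cst (dd b u) + x'` with
`x'` in `O[τ]`.)  At the end `eps (theta g f m (cst u + x)) = 0` because `eps g = 0`, `L < m`. -/
theorem van {g : Fr F} (hg : eps g = 0) {O : Submodule F (Fr F)} (hO : St g O) (B : Set (Fr F))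
    (hB : B.Finite) (hk : ∀ b ∈ B, Kl g O b) :
    ∃ m0 : ℕ, ∀ s ∈ NonUnitalAlgebra.adjoin F B, ∀ m, m0 ≤ m → ∀ f f' : Fr F,
      phi s (f' * g ^ m * f) = 0 := by
  obtain ⟨L, hL⟩ : ∃ L : ℕ, ∀ b ∈ B, ∀ f : Fr F, Len g f b L := by
    choose l hl using fun s : Fr F => exists_Len s
    refine ⟨hB.toFinset.sup l, fun b hb f => (hl b g hg f).mono ?_⟩
    exact Finset.le_sup (hB.mem_toFinset.mpr hb)
  refine ⟨2 * L + 1, fun s hs m hm f f' => ?_⟩
  have key : ∀ (u : Fr F) (x : V F), (∀ j, x j ∈ O) → (∀ j, L < j → x j = 0) →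
      ∃ x' : V F, (∀ j, x' j ∈ O) ∧ (∀ j, L < j → x' j = 0) ∧
        dd s (theta g f m (cst u + x)) = theta g f m (cst (dd s u) + x') := by
    induction hs using NonUnitalAlgebra.adjoin_induction with
    | mem b hb =>
      intro u x hx hx'
      have c1 : ∀ j, 0 < j → cst u j = 0 := fun j hj => by
        obtain ⟨i, rfl⟩ : ∃ i, j = i + 1 := ⟨j - 1, by omega⟩
        exact cst_succ _ _
      have c2 : ∀ j, 0 < j → cst (dd b u) j = 0 := fun j hj => by
        obtain ⟨i, rfl⟩ : ∃ i, j = i + 1 := ⟨j - 1, by omega⟩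
        exact cst_succ _ _
      obtain ⟨h1, -⟩ := hL b hb f L m (cst u + x) (by omega) (fun j hj => by
        rw [Pi.add_apply, c1 j (by omega), hx' j hj, add_zero])
      obtain ⟨-, h2⟩ := hL b hb f 0 m (cst u) (by omega) c1
      refine ⟨T g b (cst u) - cst (dd b u), (T_O hO b).2 u, fun j hj => ?_, ?_⟩
      · rw [Pi.sub_apply, h2 j (by omega), c2 j (by omega), sub_zero]
      · rw [h1, map_add, T_fin (hk b hb) hx hx', add_zero, add_sub_cancel]
    | add a b _ _ ha hb =>
      intro u x hx hx'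
      obtain ⟨y, y1, y2, y3⟩ := ha u x hx hx'
      obtain ⟨z, z1, z2, z3⟩ := hb u x hx hx'
      refine ⟨y + z, fun j => O.add_mem (y1 j) (z1 j), fun j hj => ?_, ?_⟩
      · rw [Pi.add_apply, y2 j hj, z2 j hj, add_zero]
      · rw [map_add, LinearMap.add_apply, y3, z3, ← theta_add, LinearMap.add_apply, map_add]
        congr 1
        abel
    | zero =>
      intro u x _ _
      refine ⟨0, fun j => O.zero_mem, fun j _ => rfl, ?_⟩
      rw [map_zero, LinearMap.zero_apply, LinearMap.zero_apply, map_zero, add_zero]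
      have : theta g f m (0 : V F) = 0 := by
        have := theta_smul g f m (0 : F) (0 : V F)
        rwa [zero_smul, zero_smul] at this
      rw [this]
    | mul a b _ _ ha hb =>
      intro u x hx hx'
      obtain ⟨y, y1, y2, y3⟩ := hb u x hx hx'
      obtain ⟨z, z1, z2, z3⟩ := ha (dd b u) y y1 y2
      refine ⟨z, z1, z2, ?_⟩
      rw [map_mul, Module.End.mul_apply, Module.End.mul_apply, y3, z3]
    | smul r a _ ha =>
      intro u x hx hx'
      obtain ⟨y, y1, y2, y3⟩ := ha u x hx hx'
      refine ⟨r • y, fun j => O.smul_mem _ (y1 j), fun j hj => ?_, ?_⟩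
      · rw [Pi.smul_apply, y2 j hj, smul_zero]
      · rw [map_smul, LinearMap.smul_apply, LinearMap.smul_apply, y3, ← theta_smul, smul_add,
          map_smul]
  obtain ⟨x', -, h2, h3⟩ := key f' 0 (fun j => O.zero_mem) (fun j _ => rfl)
  unfold phi
  rw [← theta_cst]
  rw [add_zero] at h3
  rw [h3]
  refine eps_theta hg f ?_
  obtain ⟨i, rfl⟩ : ∃ i, m = i + 1 := ⟨m - 1, by omega⟩
  rw [Pi.add_apply, cst_succ, h2 _ (by omega), add_zero]

end Pool.Agent.Koe
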