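import Pool.Agent.Koe.Kill
import Pool.Agent.Koe.Van

/-!
# The induction (step 5 of /team-store/koethe.md)
-/

set_option autoImplicit false

namespace Pool.Agent.Koe

open Polynomial

variable {F : Type*} [Field F] {K : Type*} [Field K] [Algebra F K]

/-- start: `al, be, al^2`, weight 1 -/
theorem tri_start {w : K} :
    Tri (F := F) w (lt F false) (lt F true) (lt F false * lt F false) 1 := by
  refine ⟨?_, ?_, ?_, Wt_lt false, ?_⟩
  · rw [zeta_false]
    exact X_ne_zero
  · rw [zeta_true, zeta_false]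
  · rw [map_mul, zeta_false]
  · rw [zeta_false, natDegree_X]
    norm_num

private lemma nonunital_mul {S : Set (Fr F)} {x u : Fr F} (hx : x ∈ NonUnitalAlgebra.adjoin F S)
    (hu : u ∈ Algebra.adjoin F S) : x * u ∈ NonUnitalAlgebra.adjoin F S := by
  induction hu using Algebra.adjoin_induction generalizing x with
  | mem y hy => exact mul_mem hx (NonUnitalAlgebra.subset_adjoin F hy)
  | algebraMap r =>
    rw [← Algebra.commutes, ← Algebra.smul_def]
    exact SMulMemClass.smul_mem r hx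
  | add y z _ _ hy hz =>
    rw [mul_add]
    exact add_mem (hy hx) (hz hx)
  | mul y z _ _ hy hz =>
    rw [← mul_assoc]
    exact hz (hy hx)

private lemma pow_mul_nonunital {S : Set (Fr F)} {p x : Fr F} (hp : p ∈ S) (hx : x ∈ S) (M : ℕ) :
    p ^ M * x ∈ NonUnitalAlgebra.adjoin F S := by
  induction M with
  | zero =>
    rw [pow_zero, one_mul]
    exact NonUnitalAlgebra.subset_adjoin F hx
  | succ M ih =>
    rw [pow_succ', mul_assoc]
    exact mul_mem (NonUnitalAlgebra.subset_adjoin F hp) ih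

private lemma Kl_mul {g : Fr F} {O : Submodule F (Fr F)} {u : Fr F} (hu : Kl g O u) (s : Fr F) :
    Kl g O (s * u) := by
  intro x hx
  rw [map_mul, Module.End.mul_apply, hu x hx, map_zero]

/-- step: `p' = p^(M+1) u`, `q' = p^M q u`, `r' = p^M r u` with `u` from `kill` and `M` large -/
theorem tri_step {w : K} (hw : w ∉ Set.range (algebraMap F K)) {p q r : Fr F} {n : ℕ}
    (h : Tri w p q r n) {g : Fr F} (hg : eps g = 0) {O : Submodule F (Fr F)} (hO : St g O) :
    ∃ (p' q' r' : Fr F) (n' : ℕ), Tri w p' q' r' n' ∧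
      (zeta w p).natDegree < (zeta w p').natDegree ∧
      (∀ x ∈ ({p', q', r'} : Set (Fr F)), x ∈ NonUnitalAlgebra.adjoin F ({p, q, r} : Set (Fr F))) ∧
      (∀ x ∈ ({p', q', r'} : Set (Fr F)), Kl g O x) := by
  obtain ⟨u, hu, hk, hz⟩ := kill hw h hg hO
  obtain ⟨k, hk'⟩ := exists_Wt u
  have hp0 : zeta w p ≠ 0 := h.nz
  have hD : n < 2 * (zeta w p).natDegree := h.lt
  have hz1 : zeta w (p ^ (k + 2) * u) = zeta w p ^ (k + 2) * zeta w u := by
    rw [map_mul, map_pow]
  have hdeg : (zeta w (p ^ (k + 2) * u)).natDegree =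
      (k + 2) * (zeta w p).natDegree + (zeta w u).natDegree := by
    rw [hz1, natDegree_mul (pow_ne_zero _ hp0) hz, natDegree_pow]
  refine ⟨p ^ (k + 2) * u, p ^ (k + 1) * q * u, p ^ (k + 1) * r * u, (k + 2) * n + k,
    ⟨?_, ?_, ?_, ?_, ?_⟩, ?_, ?_, ?_⟩
  · rw [hz1]
    exact mul_ne_zero (pow_ne_zero _ hp0) hz
  · rw [hz1, map_mul, map_mul, map_pow, h.hq]
    ring
  · rw [hz1, map_mul, map_mul, map_pow, h.hr]
    ring
  · exact Wt_mul (Wt_pow h.wt (k + 2)) hk'
  · rw [hdeg]
    have h1 : (k + 2) * (n + 1) ≤ (k + 2) * (2 * (zeta w p).natDegree) :=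
      Nat.mul_le_mul_left _ hD
    nlinarith
  · rw [hdeg]
    have h1 : 0 < (zeta w p).natDegree := by omega
    nlinarith
  · intro x hx
    rcases hx with rfl | rfl | rfl
    · refine nonunital_mul ?_ hu
      rw [pow_succ]
      exact pow_mul_nonunital (by simp) (by simp) _
    · exact nonunital_mul (pow_mul_nonunital (by simp) (by simp) _) hu
    · exact nonunital_mul (pow_mul_nonunital (by simp) (by simp) _) hu
  · intro x hx
    rcases hx with rfl | rfl | rfl
    · exact Kl_mul hk _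
    · exact Kl_mul hk _
    · exact Kl_mul hk _

/-- the states of the induction -/
private structure Sta (F : Type*) [Field F] {K : Type*} [Field K] [Algebra F K] (w : K) where
  p : Fr F
  q : Fr F
  r : Fr F
  n : ℕ
  h : Tri w p q r n

private lemma exists_next {w : K} (hw : w ∉ Set.range (algebraMap F K)) (g : Fr F) (s : Sta F w) :
    ∃ s' : Sta F w, (zeta w s.p).natDegree < (zeta w s'.p).natDegree ∧
      (∀ x ∈ ({s'.p, s'.q, s'.r} : Set (Fr F)),
        x ∈ NonUnitalAlgebra.adjoin F ({s.p, s.q, s.r} : Set (Fr F))) ∧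
      (eps g = 0 → ∃ O : Submodule F (Fr F), St g O ∧
        ∀ x ∈ ({s'.p, s'.q, s'.r} : Set (Fr F)), Kl g O x) := by
  by_cases hg : eps g = 0
  · obtain ⟨O, hO⟩ := exists_St g
    obtain ⟨p', q', r', n', h', h1, h2, h3⟩ := tri_step hw s.h hg hO
    exact ⟨⟨p', q', r', n', h'⟩, h1, h2, fun _ => ⟨O, hO, h3⟩⟩
  · obtain ⟨O, hO⟩ := exists_St (0 : Fr F)
    obtain ⟨p', q', r', n', h', h1, h2, h3⟩ := tri_step hw s.h (map_zero _) hO
    exact ⟨⟨p', q', r', n', h'⟩, h1, h2, fun h => absurd h hg⟩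

private lemma adjoin_mono_of {S S' : Set (Fr F)}
    (h : ∀ x ∈ S', x ∈ NonUnitalAlgebra.adjoin F S) {x : Fr F}
    (hx : x ∈ NonUnitalAlgebra.adjoin F S') : x ∈ NonUnitalAlgebra.adjoin F S := by
  have : NonUnitalAlgebra.adjoin F S' ≤ NonUnitalAlgebra.adjoin F S :=
    NonUnitalAlgebra.adjoin_le h
  exact this hx

private lemma fr_countable [Countable F] : Countable (Fr F) := by
  rw [← Cardinal.mk_le_aleph0_iff]
  refine le_trans (FreeAlgebra.cardinalMk_le_max_lift F Bool) ?_
  refine sup_le (sup_le ?_ ?_) le_rfl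
  · rw [Cardinal.lift_le_aleph0]
    exact Cardinal.mk_le_aleph0
  · rw [Cardinal.lift_le_aleph0]
    exact Cardinal.mk_le_aleph0

/-- the sequence of the words `p_j` -/
theorem exists_seq [Countable F] {w : K} (hw : w ∉ Set.range (algebraMap F K)) :
    ∃ P : ℕ → Fr F, (∀ j, j < (zeta w (P j)).natDegree) ∧
      ∀ g : Fr F, eps g = 0 → ∃ m : ℕ, ∀ (j : ℕ) (f f' : Fr F), phi (P j) (f' * g ^ m * f) = 0 := by
  classical
  haveI : Countable (Fr F) := fr_countable
  obtain ⟨e, he⟩ := exists_surjective_nat (Fr F)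
  choose nxt hn1 hn2 hn3 using fun (g : Fr F) (s : Sta F w) => exists_next hw g s
  let S : ℕ → Sta F w := fun k => Nat.rec ⟨_, _, _, _, tri_start (F := F) (w := w)⟩
    (fun k s => nxt (e k) s) k
  have hS : ∀ k, S (k + 1) = nxt (e k) (S k) := fun k => rfl
  let B : ℕ → Set (Fr F) := fun k => {(S k).p, (S k).q, (S k).r}
  have hB : ∀ k, ∀ x ∈ B (k + 1), x ∈ NonUnitalAlgebra.adjoin F (B k) := by
    intro k x hx
    exact hn2 (e k) (S k) x hx
  have hBB : ∀ k j, ∀ x ∈ B (k + j), x ∈ NonUnitalAlgebra.adjoin F (B k) := by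
    intro k j
    induction j with
    | zero =>
      intro x hx
      exact NonUnitalAlgebra.subset_adjoin F hx
    | succ j ih =>
      intro x hx
      exact adjoin_mono_of ih (hB (k + j) x hx)
  refine ⟨fun j => (S j).p, ?_, ?_⟩
  · intro j
    induction j with
    | zero =>
      have := (S 0).h.lt
      have h0 : (zeta w (S 0).p).natDegree ≠ 0 := by omega
      exact Nat.pos_of_ne_zero h0
    | succ j ih =>
      have := hn1 (e j) (S j)
      have h1 : (zeta w (S j).p).natDegree < (zeta w (S (j + 1)).p).natDegree := this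
      change j < (zeta w (S j).p).natDegree at ih
      change j + 1 < (zeta w (S (j + 1)).p).natDegree
      omega
  · intro g hg
    obtain ⟨k, hk⟩ := he g
    have hg' : eps (e k) = 0 := by rw [hk]; exact hg
    obtain ⟨O, hO, hKl⟩ := hn3 (e k) (S k) hg'
    rw [hk] at hO hKl
    have hfin : (B (k + 1)).Finite := by
      simp only [B]
      exact Set.toFinite _
    obtain ⟨m0, hm0⟩ := van hg hO (B (k + 1)) hfin (by
      intro b hb
      apply hKl
      have : b ∈ ({(S (k + 1)).p, (S (k + 1)).q, (S (k + 1)).r} : Set (Fr F)) := hb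
      rw [hS, hk] at this
      exact this)
    choose L hL using fun j => phi_len (S j).p
    obtain ⟨m, hm1, hm2⟩ : ∃ m, m0 ≤ m ∧ ∀ j ≤ k, L j < m := by
      refine ⟨m0 + ∑ j ∈ Finset.range (k + 1), (L j + 1), Nat.le_add_right _ _, ?_⟩
      intro j hj
      have h1 : L j + 1 ≤ ∑ j ∈ Finset.range (k + 1), (L j + 1) :=
        Finset.single_le_sum (f := fun j => L j + 1) (fun _ _ => Nat.zero_le _)
          (Finset.mem_range.mpr (Nat.lt_succ_of_le hj))
      omega
    refine ⟨m, ?_⟩
    intro j f f'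
    rcases le_or_gt j k with hj | hj
    · exact hL j m (hm2 j hj) g hg f f'
    · obtain ⟨i, rfl⟩ := Nat.exists_eq_add_of_lt hj
      have hmem : (S (k + i + 1)).p ∈ NonUnitalAlgebra.adjoin F (B (k + 1)) := by
        have h1 := hBB (k + 1) i (S (k + 1 + i)).p (by simp [B])
        have h2 : k + 1 + i = k + i + 1 := by omega
        rw [h2] at h1
        exact h1
      exact hm0 _ hmem m hm1 f f'

end Pool.Agent.Koe
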